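import Pool.Agent.Lib.Sieve.Euler

/-!
Mertens type bounds with unspecified but explicit additive constants.
-/

namespace Pool.Agent.Lib.Sieve

open Finset Real

theorem sum_log_primeFactors_le {n : ℕ} (hn : n ≠ 0) :
    ∑ p ∈ n.primeFactors, log p ≤ log n := by
  rw [← log_prod (fun p hp => by
    have := (Nat.prime_of_mem_primeFactors hp).pos
    positivity)]
  have h1 : ∏ p ∈ n.primeFactors, p ≤ n := Nat.le_of_dvd (Nat.pos_of_ne_zero hn)
    (Nat.prod_primeFactors_dvd n)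
  have h2 : 0 < ∏ p ∈ n.primeFactors, p :=
    prod_pos fun p hp => (Nat.prime_of_mem_primeFactors hp).pos
  rw [← Nat.cast_prod]
  apply log_le_log
  · exact_mod_cast h2
  · exact_mod_cast h1

/-- Mertens' first theorem, upper bound. -/
theorem sum_log_div_le {N : ℕ} (hN : 1 ≤ N) :
    ∑ p ∈ Nat.primesLE N, log p / p ≤ log N + log 4 := by
  have hN' : (0 : ℝ) < N := by exact_mod_cast hN
  have h1 : ∑ n ∈ Ioc 0 N, ∑ p ∈ n.primeFactors, log p ≤ N * log N := by
    calc ∑ n ∈ Ioc 0 N, ∑ p ∈ n.primeFactors, log p ≤ ∑ n ∈ Ioc 0 N, log N := by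
          refine sum_le_sum fun n hn => ?_
          have hn' := mem_Ioc.1 hn
          refine (sum_log_primeFactors_le hn'.1.ne').trans (log_le_log ?_ ?_)
          · exact_mod_cast hn'.1
          · exact_mod_cast hn'.2
      _ = N * log N := by simp
  have h2 : ∑ n ∈ Ioc 0 N, ∑ p ∈ n.primeFactors, log p =
      ∑ p ∈ Nat.primesLE N, ((N / p : ℕ) : ℝ) * log p := by
    have : ∀ n ∈ Ioc 0 N, ∑ p ∈ n.primeFactors, log p =
        ∑ p ∈ Nat.primesLE N, if p ∣ n then log p else 0 := by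
      intro n hn
      have hn' := mem_Ioc.1 hn
      rw [← sum_filter]
      refine sum_congr ?_ fun _ _ => rfl
      ext p
      simp only [Nat.mem_primeFactors, mem_filter, Nat.mem_primesLE]
      constructor
      · rintro ⟨h1, h2, _⟩
        exact ⟨⟨(Nat.le_of_dvd hn'.1 h2).trans hn'.2, h1⟩, h2⟩
      · rintro ⟨⟨_, h1⟩, h2⟩
        exact ⟨h1, h2, hn'.1.ne'⟩
    rw [sum_congr rfl this, sum_comm]
    refine sum_congr rfl fun p _ => ?_
    rw [← sum_filter, sum_const, nsmul_eq_mul, Nat.Ioc_filter_dvd_card_eq_div]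
  have h3 : ∑ p ∈ Nat.primesLE N, log p ≤ log 4 * N := by
    rw [← Chebyshev.theta_eq_sum_primesLE_log]
    exact Chebyshev.theta_le_log4_mul_x hN'.le
  have h4 : N * ∑ p ∈ Nat.primesLE N, log p / p ≤
      ∑ p ∈ Nat.primesLE N, ((N / p : ℕ) : ℝ) * log p + ∑ p ∈ Nat.primesLE N, log p := by
    rw [mul_sum, ← sum_add_distrib]
    refine sum_le_sum fun p hp => ?_
    have hp0 : 0 < p := (Nat.prime_of_mem_primesLE hp).pos
    have hp0' : (0 : ℝ) < p := by exact_mod_cast hp0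
    have hl : 0 ≤ log p := log_natCast_nonneg p
    have : (N : ℝ) / p ≤ ((N / p : ℕ) : ℝ) + 1 := by
      rw [div_le_iff₀ hp0']
      have : N ≤ (N / p + 1) * p := by
        have := Nat.lt_div_mul_add (a := N) hp0
        nlinarith
      exact_mod_cast this
    calc N * (log p / p) = (N / p) * log p := by ring
      _ ≤ (((N / p : ℕ) : ℝ) + 1) * log p := mul_le_mul_of_nonneg_right this hl
      _ = _ := by ring
  have h5 : N * ∑ p ∈ Nat.primesLE N, log p / p ≤ N * (log N + log 4) := by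
    rw [← h2] at h4; linarith
  exact le_of_mul_le_mul_left h5 hN'

theorem sum_rpow_le {κ : ℝ} (hκ : 0 < κ) (N : ℕ) :
    ∑ n ∈ Ioc 0 N, (n : ℝ) ^ (-(1 + κ)) ≤ 1 + 1 / κ := by
  have key : ∀ M : ℕ, ∑ n ∈ Ioc 0 (M + 1), (n : ℝ) ^ (-(1 + κ)) ≤
      1 + (1 - ((M + 1 : ℕ) : ℝ) ^ (-κ)) / κ := by
    intro M
    induction M with
    | zero => simp
    | succ M ih =>
      rw [sum_Ioc_succ_top (Nat.zero_le _)]
      set a : ℝ := ((M + 1 : ℕ) : ℝ) with ha
      set b : ℝ := ((M + 1 + 1 : ℕ) : ℝ) with hb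
      have hab : b = a + 1 := by rw [hb, ha]; push_cast; ring
      have ha0 : 0 < a := by rw [ha]; positivity
      have hb0 : 0 < b := by linarith
      have h1 : b ^ (-κ) * (1 + κ / b) ≤ a ^ (-κ) := by
        have h2 : a ^ (-κ) = b ^ (-κ) * (b / a) ^ κ := by
          rw [div_rpow hb0.le ha0.le, rpow_neg hb0.le, rpow_neg ha0.le]
          have : b ^ κ ≠ 0 := (rpow_pos_of_pos hb0 _).ne'
          field_simp
        rw [h2]
        apply mul_le_mul_of_nonneg_left _ (rpow_nonneg hb0.le _)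
        rw [rpow_def_of_pos (by positivity)]
        have h3 : 1 / b ≤ log (b / a) := by
          have := one_sub_inv_le_log_of_pos (x := b / a) (by positivity)
          refine le_trans (le_of_eq ?_) this
          rw [hab]; field_simp; ring
        have h4 := add_one_le_exp (log (b / a) * κ)
        have h5 : κ / b ≤ log (b / a) * κ := by
          calc κ / b = 1 / b * κ := by ring
            _ ≤ _ := mul_le_mul_of_nonneg_right h3 hκ.le
        linarith
      have h6 : b ^ (-(1 + κ)) = b ^ (-κ) / b := by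
        rw [neg_add, rpow_add hb0, rpow_neg_one]; ring
      have h7 : b ^ (-(1 + κ)) ≤ (a ^ (-κ) - b ^ (-κ)) / κ := by
        rw [h6, le_div_iff₀ hκ]
        have : b ^ (-κ) * (1 + κ / b) = b ^ (-κ) + b ^ (-κ) / b * κ := by ring
        linarith
      have h8 : (1 - b ^ (-κ)) / κ = (1 - a ^ (-κ)) / κ + (a ^ (-κ) - b ^ (-κ)) / κ := by ring
      rw [h8]
      linarith
  rcases N with _ | M
  · simp; positivity
  · refine (key M).trans ?_
    have : 0 ≤ ((M + 1 : ℕ) : ℝ) ^ (-κ) := by positivity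
    gcongr
    linarith

theorem sum_inv_sq_le (S : Finset ℕ) {Z : ℕ} (hZ : 1 ≤ Z) (hS : ∀ r ∈ S, Z < r) :
    ∑ r ∈ S, 1 / ((r : ℝ) * ((r : ℝ) - 1)) ≤ 1 / Z := by
  have key : ∀ M : ℕ, ∑ r ∈ Ioc Z (Z + M), 1 / ((r : ℝ) * ((r : ℝ) - 1)) =
      1 / Z - 1 / ((Z + M : ℕ) : ℝ) := by
    intro M
    induction M with
    | zero => simp
    | succ M ih =>
      rw [← add_assoc, sum_Ioc_succ_top (Nat.le_add_right _ _), ih]
      have : (0 : ℝ) < Z := by exact_mod_cast hZ
      push_cast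
      have : (0 : ℝ) < Z + M := by positivity
      have h3 : (Z : ℝ) + M + 1 - 1 = Z + M := by ring
      rw [h3]
      field_simp
      ring
  have hsub : S ⊆ Ioc Z (Z + S.sup id) := by
    intro r hr
    exact mem_Ioc.2 ⟨hS r hr, (le_sup (f := id) hr).trans (Nat.le_add_left _ _)⟩
  calc ∑ r ∈ S, 1 / ((r : ℝ) * ((r : ℝ) - 1))
      ≤ ∑ r ∈ Ioc Z (Z + S.sup id), 1 / ((r : ℝ) * ((r : ℝ) - 1)) := by
        refine sum_le_sum_of_subset_of_nonneg hsub fun r hr _ => ?_
        have : (1 : ℝ) ≤ r := by exact_mod_cast (hZ.trans (mem_Ioc.1 hr).1.le)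
        have : (0 : ℝ) ≤ r - 1 := by linarith
        positivity
    _ ≤ 1 / Z := by
        rw [key]
        have : (0 : ℝ) ≤ 1 / ((Z + S.sup id : ℕ) : ℝ) := by positivity
        linarith

theorem sum_inv_sq_le' (S : Finset ℕ) {Z : ℕ} (hZ : 1 ≤ Z) (hS : ∀ r ∈ S, Z < r) :
    ∑ r ∈ S, (1 / (r : ℝ)) ^ 2 ≤ 1 / (Z : ℝ) := by
  refine le_trans (sum_le_sum fun r hr => ?_) (sum_inv_sq_le S hZ hS)
  have : (2 : ℝ) ≤ r := by exact_mod_cast (lt_of_le_of_lt hZ (hS r hr))
  rw [div_pow, one_pow]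
  apply one_div_le_one_div_of_le
  · have : (0 : ℝ) < r - 1 := by linarith
    positivity
  · nlinarith

theorem sum_inv_sq_primes_le (S : Finset ℕ) (hS : ∀ r ∈ S, r.Prime) :
    ∑ r ∈ S, (1 / (r : ℝ)) ^ 2 ≤ 1 := by
  simpa using sum_inv_sq_le' S le_rfl (fun r hr => (hS r hr).one_lt)

theorem prod_one_add_rpow_le (P : Finset ℕ) (hP : ∀ p ∈ P, p.Prime) {κ : ℝ} (hκ : 0 < κ) :
    ∏ p ∈ P, (1 + (p : ℝ) ^ (-(1 + κ))) ≤ 1 + 1 / κ := by
  classical
  rw [prod_one_add]
  have h1 : ∀ S ∈ P.powerset, ∏ p ∈ S, (p : ℝ) ^ (-(1 + κ)) =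
      ((∏ p ∈ S, p : ℕ) : ℝ) ^ (-(1 + κ)) := by
    intro S _
    rw [Nat.cast_prod, Real.finsetProd_rpow _ _ (fun p _ => by positivity)]
  rw [sum_congr rfl h1]
  have hinj : Set.InjOn (fun S : Finset ℕ => ∏ p ∈ S, p) P.powerset := by
    intro S hS T hT hST
    exact prod_injOn_primes (fun p hp => hP p (mem_powerset.1 hS hp))
      (fun p hp => hP p (mem_powerset.1 hT hp)) hST
  rw [← sum_image (f := fun n : ℕ => (n : ℝ) ^ (-(1 + κ))) hinj]
  refine le_trans (sum_le_sum_of_subset_of_nonneg ?_ fun _ _ _ => by positivity)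
    (sum_rpow_le hκ (∏ p ∈ P, p))
  intro n hn
  obtain ⟨S, hS, rfl⟩ := mem_image.1 hn
  have hS' := mem_powerset.1 hS
  refine mem_Ioc.2 ⟨prod_pos fun p hp => (hP p (hS' hp)).pos, ?_⟩
  exact Nat.le_of_dvd (prod_pos fun p hp => (hP p hp).pos) (prod_dvd_prod_of_subset _ _ _ hS')

theorem one_half_le_log {y : ℕ} (hy : 2 ≤ y) : 1 / 2 ≤ log y := by
  have : log 2 ≤ log y := log_le_log (by norm_num) (by exact_mod_cast hy)
  have := log_two_gt_d9
  linarith

/-- Mertens' second theorem, upper bound. -/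
theorem sum_inv_primes_le {y : ℕ} (hy : 2 ≤ y) :
    ∑ p ∈ Nat.primesLE y, 1 / (p : ℝ) ≤ log (log y) + 7 := by
  have hl := one_half_le_log hy
  have hl0 : 0 < log y := by linarith
  set κ := 1 / log y with hκ
  have hκ0 : 0 < κ := by positivity
  have hP : ∀ p ∈ Nat.primesLE y, p.Prime := fun p hp => Nat.prime_of_mem_primesLE hp
  have h1 : ∀ p ∈ Nat.primesLE y, 1 / (p : ℝ) ≤
      log (1 + (p : ℝ) ^ (-(1 + κ))) + (1 / (p : ℝ)) ^ 2 + κ * (log p / p) := by
    intro p hp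
    have hp0 : (0 : ℝ) < p := by exact_mod_cast (hP p hp).pos
    have hp1 : (1 : ℝ) ≤ p := by exact_mod_cast (hP p hp).one_le
    set u := (p : ℝ) ^ (-(1 + κ)) with hu
    have hu0 : 0 < u := rpow_pos_of_pos hp0 _
    have hu1 : u = (p : ℝ) ^ (-κ) / p := by
      rw [hu, neg_add, rpow_add hp0, rpow_neg_one]; ring
    have h2 : (p : ℝ) ^ (-κ) ≤ 1 := rpow_le_one_of_one_le_of_nonpos hp1 (by linarith)
    have h3 : 1 - κ * log p ≤ (p : ℝ) ^ (-κ) := by
      rw [rpow_def_of_pos hp0]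
      have := add_one_le_exp (log p * -κ)
      linarith
    have h4 : u ≤ 1 / p := by rw [hu1]; gcongr
    have h5 : u - u ^ 2 ≤ log (1 + u) := by
      have := one_sub_inv_le_log_of_pos (x := 1 + u) (by linarith)
      refine le_trans ?_ this
      have h6 : 1 - (1 + u)⁻¹ = u / (1 + u) := by field_simp; ring
      rw [h6, le_div_iff₀ (by linarith)]
      nlinarith [mul_pos hu0 (mul_pos hu0 hu0)]
    have h7 : u ^ 2 ≤ (1 / (p : ℝ)) ^ 2 := by gcongr
    have h8 : 1 / (p : ℝ) - κ * (log p / p) ≤ u := by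
      rw [hu1]
      calc 1 / (p : ℝ) - κ * (log p / p) = (1 - κ * log p) / p := by ring
        _ ≤ _ := by gcongr
    linarith
  have h2 := sum_le_sum h1
  rw [sum_add_distrib, sum_add_distrib, ← mul_sum, ← log_prod (fun p _ => by positivity)] at h2
  have h3 : log (∏ p ∈ Nat.primesLE y, (1 + (p : ℝ) ^ (-(1 + κ)))) ≤ log (log y) + 2 := by
    calc _ ≤ log (1 + 1 / κ) :=
          log_le_log (prod_pos fun p _ => by positivity) (prod_one_add_rpow_le _ hP hκ0)
      _ ≤ log (log y * 3) := by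
          apply log_le_log (by positivity)
          rw [hκ, one_div_one_div]; linarith
      _ = log (log y) + log 3 := log_mul hl0.ne' (by norm_num)
      _ ≤ log (log y) + 2 := by
          have := log_le_sub_one_of_pos (x := 3) (by norm_num)
          linarith
  have h4 := sum_inv_sq_primes_le _ hP
  have h5 : κ * ∑ p ∈ Nat.primesLE y, log p / p ≤ 4 := by
    have h6 := sum_log_div_le (N := y) (by omega)
    have h7 : log 4 ≤ 3 / 2 := by
      have : log 4 = 2 * log 2 := by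
        rw [show (4 : ℝ) = 2 ^ 2 by norm_num, log_pow]; norm_num
      have := log_two_lt_d9
      linarith
    calc κ * ∑ p ∈ Nat.primesLE y, log p / p ≤ κ * (log y + 3 / 2) := by
          apply mul_le_mul_of_nonneg_left _ hκ0.le; linarith
      _ = (log y + 3 / 2) / log y := by rw [hκ]; ring
      _ ≤ 4 := by rw [div_le_iff₀ hl0]; linarith
  linarith

/-- Mertens' second theorem, lower bound. -/
theorem le_sum_inv_primes {y : ℕ} (hy : 2 ≤ y) :
    log (log y) - 2 ≤ ∑ p ∈ Nat.primesLE y, 1 / (p : ℝ) := by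
  have hl := one_half_le_log hy
  have hP : ∀ p ∈ Nat.primesLE y, p.Prime := fun p hp => Nat.prime_of_mem_primesLE hp
  have h1 := sum_le_exp (fun n => 1 / (n : ℝ)) (fun n => by positivity) (by simp)
    (fun a b => by push_cast; apply le_of_eq; ring) (Nat.primesLE y)
    (fun q hq => by
      have : (2 : ℝ) ≤ q := by exact_mod_cast (hP q hq).two_le
      exact one_div_le_one_div_of_le (by norm_num) this) (Ioc 0 y)
    (fun v hv => mem_closure_of_primes (mem_Ioc.1 hv).1.ne' fun p hp hpv => by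
      simp only [mem_coe, Nat.mem_primesLE]
      exact ⟨(Nat.le_of_dvd (mem_Ioc.1 hv).1 hpv).trans (mem_Ioc.1 hv).2, hp⟩)
  have h2 : log y ≤ ∑ v ∈ Ioc 0 y, 1 / (v : ℝ) := by
    have h3 := log_add_one_le_harmonic y
    rw [harmonic_eq_sum_Icc] at h3
    push_cast at h3
    have h4 : log y ≤ log (y + 1) := log_le_log (by positivity) (by linarith)
    have h5 : ∑ v ∈ Ioc 0 y, 1 / (v : ℝ) = ∑ v ∈ Icc 1 y, (v : ℝ)⁻¹ := by
      simp only [one_div]; rfl
    linarith
  have h3 := sum_inv_sq_primes_le _ hP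
  rw [sum_add_distrib, ← mul_sum] at h1
  have h4 : log (log y) ≤ ∑ p ∈ Nat.primesLE y, 1 / (p : ℝ) +
      2 * ∑ p ∈ Nat.primesLE y, (1 / (p : ℝ)) ^ 2 := by
    rw [log_le_iff_le_exp (by linarith)]
    linarith
  linarith

theorem sum_inv_Ioc_le (N : ℕ) : ∑ v ∈ Ioc 0 N, 1 / (v : ℝ) ≤ 1 + log N := by
  have h3 := harmonic_le_one_add_log N
  rw [harmonic_eq_sum_Icc] at h3
  push_cast at h3
  have h5 : ∑ v ∈ Ioc 0 N, 1 / (v : ℝ) = ∑ v ∈ Icc 1 N, (v : ℝ)⁻¹ := by
    simp only [one_div]; rfl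
  linarith

end Pool.Agent.Lib.Sieve
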