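import Pool.Agent.Lib.Sieve.CharSum

/-!
Lower bounds for character series at real points: two characters with coprime moduli cannot
both have small values, and the second logarithmic derivative is then small.
-/

namespace Pool.Agent.Lib.Sieve

open Finset Real LSeries
open ArithmeticFunction (vonMangoldt vonMangoldt_nonneg vonMangoldt_le_log)

/-- The character as a sequence. -/
noncomputable def cs {q : ℕ} (χ : DirichletCharacter ℂ q) : ℕ → ℂ := fun n => χ (n : ZMod q)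

/-- The character twisted by the von Mangoldt function. -/
noncomputable def cv {q : ℕ} (χ : DirichletCharacter ℂ q) : ℕ → ℂ :=
  fun n => χ (n : ZMod q) * (vonMangoldt n : ℂ)

theorem absc_cs {q : ℕ} (χ : DirichletCharacter ℂ q) {z : ℂ} (hz : 1 < z.re) :
    abscissaOfAbsConv (cs χ) < z.re := by
  refine lt_of_le_of_lt (abscissaOfAbsConv_le_of_forall_lt_LSeriesSummable (x := 1)
    fun y hy => χ.LSeriesSummable_of_one_lt_re (by simpa using hy)) ?_
  exact_mod_cast hz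

theorem absc_cv {q : ℕ} (χ : DirichletCharacter ℂ q) {z : ℂ} (hz : 1 < z.re) :
    abscissaOfAbsConv (cv χ) < z.re := by
  refine lt_of_le_of_lt (abscissaOfAbsConv_le_of_forall_lt_LSeriesSummable (x := 1)
    fun y hy => χ.LSeriesSummable_twist_vonMangoldt (by simpa using hy)) ?_
  exact_mod_cast hz

theorem cv_mul_cs {q : ℕ} (χ : DirichletCharacter ℂ q) {z : ℂ} (hz : 1 < z.re) :
    LSeries (cv χ) z * LSeries (cs χ) z = LSeries (logMul (cs χ)) z := by
  have h1 : LSeries (cv χ) z = -deriv (LSeries (cs χ)) z / LSeries (cs χ) z :=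
    χ.LSeries_twist_vonMangoldt_eq hz
  have h2 : LSeries (cs χ) z ≠ 0 := χ.LSeries_ne_zero_of_one_lt_re hz
  rw [h1, LSeries_deriv (absc_cs χ hz)]
  field_simp

theorem second_deriv_id {q : ℕ} (χ : DirichletCharacter ℂ q) {z : ℂ} (hz : 1 < z.re) :
    LSeries (logMul (cv χ)) z * LSeries (cs χ) z + LSeries (cv χ) z * LSeries (logMul (cs χ)) z =
      LSeries (logMul (logMul (cs χ))) z := by
  have h1 := (LSeries_hasDerivAt (absc_cv χ hz)).mul (LSeries_hasDerivAt (absc_cs χ hz))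
  have h2 : HasDerivAt (LSeries (logMul (cs χ))) (-LSeries (logMul (logMul (cs χ))) z) z :=
    LSeries_hasDerivAt (by rw [abscissaOfAbsConv_logMul]; exact absc_cs χ hz)
  have h3 : LSeries (cv χ) * LSeries (cs χ) =ᶠ[nhds z] LSeries (logMul (cs χ)) := by
    filter_upwards [(isOpen_lt continuous_const Complex.continuous_re).mem_nhds hz] with w hw
    exact cv_mul_cs χ hw
  have h4 := (h2.congr_of_eventuallyEq h3).unique h1
  linear_combination h4

section bounds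

variable {q : ℕ} [NeZero q] {χ : DirichletCharacter ℂ q} {M : ℕ}

theorem norm_D0_le (hχ : χ ≠ 1) (hM : 8 ≤ M) (hq : q ≤ M) {σ : ℝ} (hσ : 1 < σ) :
    ‖LSeries (cs χ) σ‖ ≤ 3 * log M ^ 3 :=
  norm_LSeries_char_le hχ (k := 0) (by norm_num) hσ.le hM hq (fun n => by simp [cs])
    (LSeriesSummable_of_abscissaOfAbsConv_lt_re (absc_cs χ (by simpa using hσ)))

theorem norm_D1_le (hχ : χ ≠ 1) (hM : 8 ≤ M) (hq : q ≤ M) {σ : ℝ} (hσ : 1 < σ) :
    ‖LSeries (logMul (cs χ)) σ‖ ≤ 3 * log M ^ 3 :=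
  norm_LSeries_char_le hχ (k := 1) (by norm_num) hσ.le hM hq (fun n => by simp [cs])
    (LSeriesSummable_logMul_of_lt_re (absc_cs χ (by simpa using hσ)))

theorem norm_D2_le (hχ : χ ≠ 1) (hM : 8 ≤ M) (hq : q ≤ M) {σ : ℝ} (hσ : 1 < σ) :
    ‖LSeries (logMul (logMul (cs χ))) σ‖ ≤ 3 * log M ^ 3 :=
  norm_LSeries_char_le hχ (k := 2) le_rfl hσ.le hM hq
    (fun n => by simp only [cs, logMul]; ring)
    (LSeriesSummable_logMul_of_lt_re
      (by rw [abscissaOfAbsConv_logMul]; exact absc_cs χ (by simpa using hσ)))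

theorem norm_D0_sub_le (hχ : χ ≠ 1) (hM : 8 ≤ M) (hq : q ≤ M) {σ τ : ℝ} (hσ : 1 < σ)
    (hστ : σ ≤ τ) :
    ‖LSeries (cs χ) τ - LSeries (cs χ) σ‖ ≤ 3 * log M ^ 3 * (τ - σ) := by
  have h := Convex.norm_image_sub_le_of_norm_hasDerivWithin_le (𝕜 := ℝ)
    (f := fun t : ℝ => LSeries (cs χ) t) (f' := fun t : ℝ => -LSeries (logMul (cs χ)) t)
    (s := Set.Icc σ τ) (C := 3 * log M ^ 3) (x := σ) (y := τ)
    (fun t ht => ((LSeries_hasDerivAt (absc_cs χ (z := t)
      (by simpa using hσ.trans_le ht.1))).comp_ofReal).hasDerivWithinAt)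
    (fun t ht => by rw [norm_neg]; exact norm_D1_le hχ hM hq (hσ.trans_le ht.1))
    (convex_Icc _ _) ⟨le_rfl, hστ⟩ ⟨hστ, le_rfl⟩
  rwa [Real.norm_of_nonneg (by linarith : 0 ≤ τ - σ)] at h

theorem norm_P2_le (hχ : χ ≠ 1) (hM : 8 ≤ M) (hq : q ≤ M) {σ : ℝ} (hσ : 1 < σ) {B : ℝ}
    (hB : 0 < B) (hlow : 1 ≤ B * ‖LSeries (cs χ) σ‖) :
    ‖LSeries (logMul (cv χ)) σ‖ ≤ 3 * log M ^ 3 * B + (3 * log M ^ 3 * B) ^ 2 := by
  have hz : 1 < (σ : ℂ).re := by simpa using hσ
  have h1 := second_deriv_id χ hz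
  have h2 := cv_mul_cs χ hz
  have h3 := norm_D1_le hχ hM hq hσ
  have h4 := norm_D2_le hχ hM hq hσ
  set A := 3 * log M ^ 3
  set D0 := LSeries (cs χ) σ
  set D1 := LSeries (logMul (cs χ)) σ
  set D2 := LSeries (logMul (logMul (cs χ))) σ
  set P1 := LSeries (cv χ) σ
  set P2 := LSeries (logMul (cv χ)) σ
  have h5 : ‖P1‖ ≤ A * B := by
    calc ‖P1‖ ≤ ‖P1‖ * (B * ‖D0‖) := le_mul_of_one_le_right (norm_nonneg _) hlow
      _ = ‖P1 * D0‖ * B := by rw [norm_mul]; ring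
      _ ≤ A * B := by rw [h2]; gcongr
  have hA : 0 ≤ A := (norm_nonneg _).trans h3
  have h6 : ‖P2 * D0‖ ≤ A + A * B * A := by
    have : P2 * D0 = D2 - P1 * D1 := by linear_combination h1
    rw [this]
    refine (norm_sub_le _ _).trans (add_le_add h4 ?_)
    rw [norm_mul]
    gcongr
  calc ‖P2‖ ≤ ‖P2‖ * (B * ‖D0‖) := le_mul_of_one_le_right (norm_nonneg _) hlow
    _ = ‖P2 * D0‖ * B := by rw [norm_mul]; ring
    _ ≤ (A + A * B * A) * B := by gcongr
    _ = _ := by ring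

end bounds

/-- The coefficients of the logarithm of the zeta function. -/
noncomputable def cl (σ : ℝ) (n : ℕ) : ℝ := vonMangoldt n / log n * (n : ℝ) ^ (-σ)

theorem cl_nonneg (σ : ℝ) (n : ℕ) : 0 ≤ cl σ n :=
  mul_nonneg (div_nonneg vonMangoldt_nonneg (log_natCast_nonneg n)) (by positivity)

theorem summable_cl {σ : ℝ} (hσ : 1 < σ) : Summable (cl σ) := by
  refine Summable.of_nonneg_of_le (cl_nonneg σ) (fun n => ?_)
    (summable_nat_rpow.2 (by linarith : -σ < -1))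
  unfold cl
  apply mul_le_of_le_one_left (by positivity)
  exact div_le_one_of_le₀ vonMangoldt_le_log (log_natCast_nonneg n)

theorem summable_re_cl {q : ℕ} (χ : DirichletCharacter ℂ q) {σ : ℝ} (hσ : 1 < σ) :
    Summable (fun n : ℕ => (χ (n : ZMod q)).re * cl σ n) := by
  refine Summable.of_norm_bounded (summable_cl hσ) fun n => ?_
  rw [norm_mul, Real.norm_of_nonneg (cl_nonneg _ _)]
  exact mul_le_of_le_one_left (cl_nonneg _ _)
    ((Complex.abs_re_le_norm _).trans (χ.norm_le_one _))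

theorem norm_D0_eq_exp {q : ℕ} (χ : DirichletCharacter ℂ q) {σ : ℝ} (hσ : 1 < σ) :
    ‖LSeries (cs χ) σ‖ = exp (∑' n : ℕ, (χ (n : ZMod q)).re * cl σ n) := by
  have h1 := χ.LSeries_eq_exp_LSeries (s := σ) (by simpa using hσ)
  have h2 : ∀ n : ℕ, term (fun n : ℕ => χ n * vonMangoldt n / Real.log n) σ n =
      χ (n : ZMod q) * (cl σ n : ℂ) := by
    intro n
    rcases eq_or_ne n 0 with rfl | hn
    · simp [cl]
    · rw [term_of_ne_zero hn, cl]
      push_cast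
      rw [Complex.ofReal_cpow (by positivity)]
      push_cast
      rw [Complex.cpow_neg]
      ring
  have h3 : Summable (fun n : ℕ => χ (n : ZMod q) * (cl σ n : ℂ)) := by
    refine Summable.of_norm_bounded (summable_cl hσ) fun n => ?_
    rw [norm_mul, Complex.norm_real, Real.norm_of_nonneg (cl_nonneg _ _)]
    exact mul_le_of_le_one_left (cl_nonneg _ _) (χ.norm_le_one _)
  change ‖LSeries (fun n : ℕ => χ (n : ZMod q)) σ‖ = _
  rw [← h1, Complex.norm_exp, LSeries]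
  simp only [h2]
  rw [Complex.re_tsum h3]
  simp

theorem exp_tsum_cl_le {κ : ℝ} (hκ : 0 < κ) : exp (∑' n : ℕ, cl (1 + κ) n) ≤ 1 + 1 / κ := by
  have hσ : 1 < 1 + κ := by linarith
  have h1 := norm_D0_eq_exp (1 : DirichletCharacter ℂ 1) hσ
  have h2 : ∀ n : ℕ, (1 : DirichletCharacter ℂ 1) (n : ZMod 1) = 1 := fun n =>
    MulChar.one_apply (isUnit_of_subsingleton _)
  simp only [h2, Complex.one_re, one_mul] at h1
  rw [← h1]
  have hs : LSeriesSummable (cs (1 : DirichletCharacter ℂ 1)) ((1 + κ : ℝ) : ℂ) :=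
    LSeriesSummable_of_abscissaOfAbsConv_lt_re (absc_cs _ (by simpa using hκ))
  have h3 := (hs.hasSum.tendsto_sum_nat.comp (Filter.tendsto_add_atTop_nat 1)).norm
  refine le_of_tendsto' h3 fun j => ?_
  have h4 := term_eq_wk (f := cs (1 : DirichletCharacter ℂ 1)) (a := fun _ => 1) (k := 0)
    (fun n => by simp [cs, h2]) hσ.le
  simp only [Function.comp, h4, one_mul]
  rw [← Complex.ofReal_sum, Complex.norm_real,
    Real.norm_of_nonneg (sum_nonneg fun _ _ => wk_nonneg _ _ _), range_eq_Ico,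
    sum_eq_sum_Ico_succ_bot (by omega), wk_zero 0 hσ.le, zero_add]
  refine le_trans (le_of_eq ?_) (sum_rpow_le hκ j)
  refine sum_congr rfl fun n _ => ?_
  simp [wk]

theorem exists_mul_char {a b : ℕ} [NeZero a] [NeZero b] (hab : a.Coprime b)
    {χ : DirichletCharacter ℂ a} (hχ : χ ≠ 1) (ψ : DirichletCharacter ℂ b) :
    ∃ ξ : DirichletCharacter ℂ (a * b), ξ ≠ 1 ∧
      ∀ n : ℕ, ξ (n : ZMod (a * b)) = χ (n : ZMod a) * ψ (n : ZMod b) := by
  let ξ : DirichletCharacter ℂ (a * b) :=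
    DirichletCharacter.changeLevel (dvd_mul_right a b) χ *
      DirichletCharacter.changeLevel (dvd_mul_left b a) ψ
  have hξ : ∀ n : ℕ, ξ (n : ZMod (a * b)) = χ (n : ZMod a) * ψ (n : ZMod b) := by
    intro n
    by_cases h : n.Coprime (a * b)
    · have h' : IsCoprime (n : ℤ) ((a * b : ℕ) : ℤ) := Nat.isCoprime_iff_coprime.2 h
      have h1 := DirichletCharacter.changeLevel_eq_cast_of_dvd' χ (dvd_mul_right a b) h'
      have h2 := DirichletCharacter.changeLevel_eq_cast_of_dvd' ψ (dvd_mul_left b a) h'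
      simp only [Int.cast_natCast] at h1 h2
      simp only [ξ, MulChar.coeToFun_mul, Pi.mul_apply, h1, h2]
    · rw [MulChar.map_nonunit _ (by rwa [ZMod.isUnit_iff_coprime])]
      rw [Nat.coprime_mul_iff_right, not_and_or] at h
      rcases h with h | h
      · rw [MulChar.map_nonunit χ (by rwa [ZMod.isUnit_iff_coprime]), zero_mul]
      · rw [MulChar.map_nonunit ψ (by rwa [ZMod.isUnit_iff_coprime]), mul_zero]
  refine ⟨ξ, ?_, hξ⟩
  obtain ⟨u, hu⟩ := MulChar.ne_one_iff.1 hχ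
  obtain ⟨n, hn1, hn2⟩ := Nat.chineseRemainder hab (u : ZMod a).val 1
  have h1 : (n : ZMod a) = u := by
    rw [(ZMod.natCast_eq_natCast_iff _ _ _).2 hn1]; simp
  have h2 : (n : ZMod b) = 1 := by
    rw [(ZMod.natCast_eq_natCast_iff _ _ _).2 hn2]; simp
  have h3 : n.Coprime (a * b) := by
    rw [Nat.coprime_mul_iff_right, ← ZMod.isUnit_iff_coprime, ← ZMod.isUnit_iff_coprime, h1, h2]
    exact ⟨u.isUnit, isUnit_one⟩
  intro h
  have h4 := hξ n
  rw [h, MulChar.one_apply ((ZMod.isUnit_iff_coprime _ _).2 h3), h1, h2, map_one, mul_one] at h4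
  exact hu h4.symm

theorem product_ge_one {a b : ℕ} [NeZero a] [NeZero b] (hab : a.Coprime b)
    {χ : DirichletCharacter ℂ a} (hχ : χ ≠ 1) (ψ : DirichletCharacter ℂ b) {M : ℕ} (hM : 8 ≤ M)
    (hq : a * b ≤ M) {κ : ℝ} (hκ : 0 < κ) :
    1 ≤ (1 + 1 / κ) * ‖LSeries (cs χ) (1 + κ : ℝ)‖ * ‖LSeries (cs ψ) (1 + κ : ℝ)‖ *
      (3 * log M ^ 3) := by
  have hσ : 1 < 1 + κ := by linarith
  obtain ⟨ξ, hξ1, hξ⟩ := exists_mul_char hab hχ ψ
  obtain ⟨η, hη1, hη⟩ := exists_mul_char hab hχ ψ⁻¹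
  have : NeZero (a * b) := ⟨mul_ne_zero (NeZero.ne a) (NeZero.ne b)⟩
  have h1 := norm_D0_le hξ1 hM hq hσ
  have h2 := norm_D0_le hη1 hM hq hσ
  have h3 := exp_tsum_cl_le hκ
  rw [norm_D0_eq_exp _ hσ] at h1 h2 ⊢
  rw [norm_D0_eq_exp _ hσ]
  have s0 := summable_cl hσ
  have s1 := summable_re_cl χ hσ
  have s2 := summable_re_cl ψ hσ
  have s3 := summable_re_cl ξ hσ
  have s4 := summable_re_cl η hσ
  have h4 : 0 ≤ 2 * (∑' n, cl (1 + κ) n) + 2 * (∑' n : ℕ, (χ (n : ZMod a)).re * cl (1 + κ) n) +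
      2 * (∑' n : ℕ, (ψ (n : ZMod b)).re * cl (1 + κ) n) +
      (∑' n : ℕ, (ξ (n : ZMod (a * b))).re * cl (1 + κ) n) +
      (∑' n : ℕ, (η (n : ZMod (a * b))).re * cl (1 + κ) n) := by
    have h5 := (((s0.hasSum.mul_left 2).add (s1.hasSum.mul_left 2)).add
      (s2.hasSum.mul_left 2)).add s3.hasSum |>.add s4.hasSum
    refine h5.nonneg fun n => ?_
    rw [hξ, hη, ← MulChar.star_apply']
    have h6 : -1 ≤ (χ (n : ZMod a)).re :=
      (abs_le.1 ((Complex.abs_re_le_norm _).trans (χ.norm_le_one _))).1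
    have h7 : -1 ≤ (ψ (n : ZMod b)).re :=
      (abs_le.1 ((Complex.abs_re_le_norm _).trans (ψ.norm_le_one _))).1
    have h8 := cl_nonneg (1 + κ) n
    have h9 : 0 ≤ 2 * ((1 + (χ (n : ZMod a)).re) * (1 + (ψ (n : ZMod b)).re)) * cl (1 + κ) n :=
      mul_nonneg (mul_nonneg (by norm_num) (mul_nonneg (by linarith) (by linarith))) h8
    refine h9.trans (le_of_eq ?_)
    simp only [Complex.mul_re, RCLike.star_def, Complex.conj_re, Complex.conj_im]
    ring
  set E0 := ∑' n, cl (1 + κ) n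
  set E1 := ∑' n : ℕ, (χ (n : ZMod a)).re * cl (1 + κ) n
  set E2 := ∑' n : ℕ, (ψ (n : ZMod b)).re * cl (1 + κ) n
  set E3 := ∑' n : ℕ, (ξ (n : ZMod (a * b))).re * cl (1 + κ) n
  set E4 := ∑' n : ℕ, (η (n : ZMod (a * b))).re * cl (1 + κ) n
  set A := 3 * log M ^ 3
  have hA : 0 < A := (exp_pos _).trans_le h1
  have h5 : exp ((E3 + E4) / 2) ≤ A := by
    rcases le_total E3 E4 with h | h
    · exact (exp_le_exp.2 (by linarith)).trans h2
    · exact (exp_le_exp.2 (by linarith)).trans h1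
  calc (1 : ℝ) ≤ exp (E0 + E1 + E2 + (E3 + E4) / 2) := one_le_exp (by linarith)
    _ = exp E0 * exp E1 * exp E2 * exp ((E3 + E4) / 2) := by rw [exp_add, exp_add, exp_add]
    _ ≤ _ := by gcongr

end Pool.Agent.Lib.Sieve
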