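import Pool.Agent.Lib.Sieve.Mertens

/-!
Completely multiplicative weights and the singular factor `ew`.
-/

namespace Pool.Agent.Lib.Sieve

open Finset Real

/-- The completely multiplicative function with value `a p` at the prime `p`. -/
noncomputable def cw (a : ℕ → ℝ) (n : ℕ) : ℝ := n.factorization.prod fun p k => a p ^ k

theorem cw_one (a : ℕ → ℝ) : cw a 1 = 1 := by simp [cw]

theorem cw_mul (a : ℕ → ℝ) {m n : ℕ} (hm : m ≠ 0) (hn : n ≠ 0) :
    cw a (m * n) = cw a m * cw a n := by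
  unfold cw
  rw [Nat.factorization_mul hm hn, Finsupp.prod_add_index']
  · intro p; simp
  · intro p k l; rw [pow_add]

theorem cw_prime (a : ℕ → ℝ) {p : ℕ} (hp : p.Prime) : cw a p = a p := by
  unfold cw
  rw [hp.factorization, Finsupp.prod_single_index] <;> simp

theorem cw_eq_prod (a : ℕ → ℝ) (n : ℕ) :
    cw a n = ∏ p ∈ n.primeFactors, a p ^ n.factorization p := rfl

theorem cw_nonneg {a : ℕ → ℝ} (ha : ∀ p, 0 ≤ a p) (n : ℕ) : 0 ≤ cw a n := by
  rw [cw_eq_prod]
  exact prod_nonneg fun p _ => pow_nonneg (ha p) _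

theorem cw_le_one {a : ℕ → ℝ} (ha : ∀ p, 0 ≤ a p) (ha1 : ∀ p, a p ≤ 1) (n : ℕ) : cw a n ≤ 1 := by
  rw [cw_eq_prod]
  exact prod_le_one (fun p _ => pow_nonneg (ha p) _) fun p _ => pow_le_one₀ (ha p) (ha1 p)

theorem cw_mono {a b : ℕ → ℝ} (ha : ∀ p, 0 ≤ a p) {n : ℕ}
    (hab : ∀ p, p.Prime → p ∣ n → a p ≤ b p) : cw a n ≤ cw b n := by
  rw [cw_eq_prod, cw_eq_prod]
  exact prod_le_prod (fun p _ => pow_nonneg (ha p) _) fun p hp =>
    pow_le_pow_left₀ (ha p) (hab p (Nat.prime_of_mem_primeFactors hp)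
      (Nat.dvd_of_mem_primeFactors hp)) _

theorem cw_congr {a b : ℕ → ℝ} {n : ℕ} (hab : ∀ p, p.Prime → p ∣ n → a p = b p) :
    cw a n = cw b n := by
  rw [cw_eq_prod, cw_eq_prod]
  exact prod_congr rfl fun p hp => by
    rw [hab p (Nat.prime_of_mem_primeFactors hp) (Nat.dvd_of_mem_primeFactors hp)]

theorem cw_eq_one {a : ℕ → ℝ} {n : ℕ} (h : ∀ p, p.Prime → p ∣ n → a p = 1) : cw a n = 1 := by
  rw [cw_congr (b := fun _ => 1) h]; simp [cw_eq_prod]

theorem cw_le_prod {a : ℕ → ℝ} (ha : ∀ p, 0 ≤ a p) (ha1 : ∀ p, a p ≤ 1) {n : ℕ} (hn : n ≠ 0)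
    (Q : Finset ℕ) (hQ : ∀ p ∈ Q, p.Prime) :
    cw a n ≤ ∏ p ∈ Q.filter (fun p => p ∣ n), a p := by
  have hsub : Q.filter (fun p => p ∣ n) ⊆ n.primeFactors := fun p hp =>
    Nat.mem_primeFactors.2 ⟨hQ p (mem_filter.1 hp).1, (mem_filter.1 hp).2, hn⟩
  calc cw a n ≤ ∏ p ∈ n.primeFactors, a p := by
        rw [cw_eq_prod]
        refine prod_le_prod (fun p _ => pow_nonneg (ha p) _) fun p hp => ?_
        refine pow_le_of_le_one (ha p) (ha1 p) ?_
        exact Finsupp.mem_support_iff.1 hp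
    _ ≤ _ := prod_le_prod_of_subset_of_le_one hsub (fun p _ => ha p) fun p _ _ => ha1 p

theorem cw_div_submul (a : ℕ → ℝ) (m n : ℕ) :
    cw a (m * n) / ((m * n : ℕ) : ℝ) ≤ cw a m / m * (cw a n / n) := by
  rcases eq_or_ne m 0 with rfl | hm
  · simp
  rcases eq_or_ne n 0 with rfl | hn
  · simp
  rw [cw_mul a hm hn]; push_cast; apply le_of_eq; ring

/-- The factor `exp (∑ 1 / p)` over the primes dividing `s`. -/
noncomputable def ew (s : ℕ) : ℝ := exp (∑ p ∈ s.primeFactors, 1 / (p : ℝ))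

theorem one_le_ew (s : ℕ) : 1 ≤ ew s :=
  one_le_exp (sum_nonneg fun p _ => by positivity)

theorem ew_pos (s : ℕ) : 0 < ew s := exp_pos _

theorem sum_ew_cube_le (K : ℕ) : ∑ s ∈ Ioc 0 K, ew s ^ 3 ≤ exp 15 * K := by
  have hP : ∀ p ∈ Nat.primesLE K, p.Prime := fun p hp => Nat.prime_of_mem_primesLE hp
  have h1 := sum_prod_one_add_le (Nat.primesLE K) hP (fun p => exp (3 / p) - 1)
    (fun p _ => by
      have : 1 ≤ exp (3 / (p : ℝ)) := one_le_exp (by positivity)
      linarith) K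
  have h2 : ∀ s ∈ Ioc 0 K, ew s ^ 3 =
      ∏ p ∈ (Nat.primesLE K).filter (fun p => p ∣ s), (1 + (exp (3 / (p : ℝ)) - 1)) := by
    intro s hs
    have hs' := mem_Ioc.1 hs
    have : (Nat.primesLE K).filter (fun p => p ∣ s) = s.primeFactors := by
      ext p
      simp only [Nat.mem_primeFactors, mem_filter, Nat.mem_primesLE]
      constructor
      · rintro ⟨⟨_, h1⟩, h2⟩
        exact ⟨h1, h2, hs'.1.ne'⟩
      · rintro ⟨h1, h2, _⟩
        exact ⟨⟨(Nat.le_of_dvd hs'.1 h2).trans hs'.2, h1⟩, h2⟩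
    rw [this, ew, ← exp_nat_mul, mul_sum, exp_sum]
    refine prod_congr rfl fun p _ => ?_
    rw [add_sub_cancel]; congr 1; push_cast; ring
  rw [sum_congr rfl h2]
  refine h1.trans ?_
  rw [mul_comm]
  apply mul_le_mul_of_nonneg_right _ (by positivity)
  have h3 := sum_inv_sq_primes_le _ hP
  calc ∏ p ∈ Nat.primesLE K, (1 + (exp (3 / (p : ℝ)) - 1) / p)
      ≤ ∏ p ∈ Nat.primesLE K, exp (15 * (1 / (p : ℝ)) ^ 2) := by
        refine prod_le_prod (fun p _ => ?_) fun p hp => ?_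
        · have : 1 ≤ exp (3 / (p : ℝ)) := one_le_exp (by positivity)
          have : 0 ≤ exp (3 / (p : ℝ)) - 1 := by linarith
          positivity
        · have hp2 : (2 : ℝ) ≤ p := by exact_mod_cast (hP p hp).two_le
          have hu : 3 / (p : ℝ) ≤ 3 / 2 := by gcongr
          have hu0 : 0 < 3 / (p : ℝ) := by positivity
          have h4 : exp (3 / (p : ℝ)) - 1 ≤ 5 * (3 / p) := by
            have h5 := add_one_le_exp (-(3 / (p : ℝ)))
            have h6 : exp (3 / (p : ℝ)) ≤ 5 := by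
              calc exp (3 / (p : ℝ)) ≤ exp (3 / 2) := exp_le_exp.2 hu
                _ ≤ 5 := by
                  have h7 : exp (3 / 2) ^ 2 = exp 1 ^ 3 := by
                    rw [← exp_nat_mul, ← exp_nat_mul]; norm_num
                  have h8 := exp_one_lt_d9
                  have h9 : exp 1 ^ 3 ≤ 5 ^ 2 := by
                    calc exp 1 ^ 3 ≤ 2.7182818286 ^ 3 := by gcongr
                      _ ≤ 5 ^ 2 := by norm_num
                  exact le_of_sq_le_sq (h7 ▸ h9) (by norm_num)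
            have h7 : exp (3 / (p : ℝ)) * exp (-(3 / (p : ℝ))) = 1 := by
              rw [← exp_add]; simp
            have h8 := exp_pos (3 / (p : ℝ))
            nlinarith
          have h5 := add_one_le_exp (15 * (1 / (p : ℝ)) ^ 2)
          have h6 : (exp (3 / (p : ℝ)) - 1) / p ≤ 15 * (1 / (p : ℝ)) ^ 2 := by
            calc _ ≤ (5 * (3 / p)) / (p : ℝ) := by gcongr
              _ = _ := by ring
          linarith
    _ = exp (15 * ∑ p ∈ Nat.primesLE K, (1 / (p : ℝ)) ^ 2) := by rw [mul_sum, exp_sum]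
    _ ≤ exp 15 := exp_le_exp.2 (by linarith)

theorem sum_ew_le (K : ℕ) : ∑ s ∈ Ioc 0 K, ew s ≤ exp 15 * K := by
  refine le_trans (sum_le_sum fun s _ => ?_) (sum_ew_cube_le K)
  exact le_self_pow₀ (one_le_ew s) (by norm_num)

end Pool.Agent.Lib.Sieve
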