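import Pool.Agent.Lib.Sieve.Upper
import Pool.Agent.Lib.Sieve.Weights

/-!
Upper bounds for primes of the shape `s * c + 1`: two such primes at once, and one such prime
with the weight one half for every prime factor of `c` in a given range.
-/

namespace Pool.Agent.Lib.Sieve

open Finset Real

/-- The residues `r` modulo `p` with `p ∣ s * r + 1`. -/
def res (s p : ℕ) : Finset ℕ := (range p).filter (fun r => p ∣ s * r + 1)

theorem res_subset (s p : ℕ) : res s p ⊆ range p := filter_subset _ _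

theorem mod_mem_res {s p c : ℕ} (hp : 0 < p) : c % p ∈ res s p ↔ p ∣ s * c + 1 := by
  unfold res
  rw [mem_filter, mem_range, and_iff_right (Nat.mod_lt _ hp), Nat.dvd_iff_mod_eq_zero,
    Nat.dvd_iff_mod_eq_zero]
  have : (s * (c % p) + 1) % p = (s * c + 1) % p :=
    ((Nat.mod_modEq c p).mul_left s).add_right 1
  rw [this]

theorem zero_not_mem_res {s p : ℕ} (hp : p.Prime) : 0 ∉ res s p := by
  unfold res
  simp [hp.one_lt.ne']

theorem card_res_le {s p : ℕ} (hp : p.Prime) : (res s p).card ≤ 1 := by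
  rw [card_le_one]
  intro a ha b hb
  unfold res at ha hb
  rw [mem_filter, mem_range] at ha hb
  have hs : ¬ p ∣ s := fun h => hp.one_lt.ne' (Nat.dvd_one.1
    ((Nat.dvd_add_right (h.mul_right a)).1 ha.2))
  have h1 : s * a + 1 ≡ s * b + 1 [MOD p] :=
    ((Nat.modEq_zero_iff_dvd).2 ha.2).trans ((Nat.modEq_zero_iff_dvd).2 hb.2).symm
  have h2 : s * a ≡ s * b [MOD p] := Nat.ModEq.add_right_cancel' 1 h1
  have h3 : a ≡ b [MOD p] := Nat.ModEq.cancel_left_of_coprime
    ((Nat.Prime.coprime_iff_not_dvd hp).2 hs) h2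
  exact Nat.ModEq.eq_of_lt_of_lt h3 ha.1 hb.1

theorem res_nonempty {s p : ℕ} (hp : p.Prime) (hs : ¬ p ∣ s) : (res s p).Nonempty := by
  obtain ⟨m, hm, hm'⟩ := Nat.exists_mul_mod_eq_of_coprime (k := p) (n := s) (p - 1)
    ((Nat.Prime.coprime_iff_not_dvd hp).2 hs).symm hp.ne_zero
  refine ⟨m, mem_filter.2 ⟨mem_range.2 hm, ?_⟩⟩
  have h1 : s * m + 1 ≡ (p - 1) + 1 [MOD p] := Nat.ModEq.add_right 1 hm'
  rw [Nat.sub_add_cancel hp.one_le] at h1
  exact (Nat.modEq_zero_iff_dvd).1 (h1.trans ((Nat.modEq_zero_iff_dvd).2 dvd_rfl))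

theorem disjoint_res {s t p : ℕ} (hp : p.Prime) (hst : s ≤ t) (h : ¬ p ∣ t - s) :
    Disjoint (res s p) (res t p) := by
  rw [disjoint_left]
  intro r hr hr'
  have h0 : r ≠ 0 := fun h0 => zero_not_mem_res hp (h0 ▸ hr)
  unfold res at hr hr'
  rw [mem_filter, mem_range] at hr hr'
  have h1 : p ∣ (t - s) * r := by
    have : t * r + 1 = (s * r + 1) + (t - s) * r := by
      obtain ⟨d, rfl⟩ := Nat.exists_eq_add_of_le hst
      rw [Nat.add_sub_cancel_left]; ring
    rw [this] at hr'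
    exact (Nat.dvd_add_right hr.2).1 hr'.2
  rcases (Nat.Prime.dvd_mul hp).1 h1 with h2 | h2
  · exact h h2
  · exact absurd (Nat.le_of_dvd (Nat.pos_of_ne_zero h0) h2) (not_le.2 hr.1)

theorem exists_level {N : ℕ} (hN : 2 ^ 120 ≤ N) :
    ∃ y : ℕ, 8 ≤ y ∧ log N ≤ 80 * log y ∧ y ≤ N ∧
      (y : ℝ) + 2 * (y : ℝ) ^ 36 ≤ 300 * (N / log N ^ 2) := by
  obtain ⟨y, h8, h1, h2⟩ : ∃ y : ℕ, 8 ≤ y ∧ y ^ 40 ≤ N ∧ N < (y + 1) ^ 40 :=
    ⟨Nat.nthRoot 40 N, (Nat.le_nthRoot_iff (by norm_num)).2 (le_trans (by norm_num) hN),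
      Nat.pow_nthRoot_le_iff.2 (Or.inl (by norm_num)), Nat.lt_pow_nthRoot_add_one (by norm_num) N⟩
  have hN0 : (0 : ℝ) < N := by
    have : 0 < N := lt_of_lt_of_le (by norm_num) hN
    exact_mod_cast this
  have hy : (8 : ℝ) ≤ y := by exact_mod_cast h8
  have h3 : log N ≤ 80 * log y := by
    have h4 : (N : ℝ) ≤ (y : ℝ) ^ 80 := by
      have h0 : y + 1 ≤ y ^ 2 := by clear h1 h2 hN; nlinarith
      have h5 : (y + 1) ^ 40 ≤ (y ^ 2) ^ 40 := Nat.pow_le_pow_left h0 _
      have h6 : N ≤ y ^ 80 := by rw [← pow_mul] at h5; exact h2.le.trans h5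
      exact_mod_cast h6
    calc log N ≤ log ((y : ℝ) ^ 80) := log_le_log hN0 h4
      _ = 80 * log y := by rw [log_pow]; norm_num
  refine ⟨y, h8, h3, (Nat.le_self_pow (by norm_num) y).trans h1, ?_⟩
  have hl : 0 < log N := log_pos (by
    have : 1 < N := lt_of_lt_of_le (by norm_num) hN
    exact_mod_cast this)
  have h5 : log y ≤ y := (log_le_sub_one_of_pos (by linarith)).trans (by linarith)
  have h6 : log N ^ 2 ≤ (80 * y) ^ 2 := by gcongr; linarith
  have h7 : (y : ℝ) ^ 40 ≤ N := by exact_mod_cast h1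
  have h9 : (y : ℝ) ≤ (y : ℝ) ^ 36 := le_self_pow₀ (by linarith) (by norm_num)
  have h10 : (y : ℝ) ^ 36 ≤ 100 * (N / log N ^ 2) := by
    calc (y : ℝ) ^ 36 ≤ (y : ℝ) ^ 36 * (y ^ 2 / 64) := by
          apply le_mul_of_one_le_right (by positivity)
          rw [le_div_iff₀ (by norm_num)]
          calc (1 : ℝ) * 64 = 8 ^ 2 := by norm_num
            _ ≤ _ := by gcongr
      _ = 100 * ((y : ℝ) ^ 40 / (80 * y) ^ 2) := by field_simp; norm_num
      _ ≤ _ := by gcongr
  linarith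

/-- The sifting primes. -/
def sp (y : ℕ) : Finset ℕ := (Nat.primesLE y).filter (fun p => 5 ≤ p)

theorem mem_sp {y p : ℕ} (hp : p ∈ sp y) : p.Prime ∧ 4 ≤ p ∧ p ≤ y := by
  unfold sp at hp
  rw [mem_filter, Nat.mem_primesLE] at hp
  exact ⟨hp.1.2, by omega, hp.1.1⟩

theorem sum_small_primes_le (S : Finset ℕ) (hS : ∀ p ∈ S, p.Prime ∧ ¬ 5 ≤ p) :
    ∑ p ∈ S, 1 / (p : ℝ) ≤ 1 := by
  have : S ⊆ {2, 3} := by
    intro p hp
    obtain ⟨h1, h2⟩ := hS p hp
    have h3 := h1.two_le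
    have : p ≠ 4 := by rintro rfl; exact absurd h1 (by norm_num)
    simp only [mem_insert, mem_singleton]; omega
  refine (sum_le_sum_of_subset_of_nonneg this fun _ _ _ => by positivity).trans ?_
  rw [sum_pair (by norm_num)]; norm_num

theorem le_sum_sp {y : ℕ} (hy : 2 ≤ y) : log (log y) - 3 ≤ ∑ p ∈ sp y, 1 / (p : ℝ) := by
  have h1 := le_sum_inv_primes hy
  rw [← sum_filter_add_sum_filter_not _ (fun p => 5 ≤ p)] at h1
  have h2 := sum_small_primes_le ((Nat.primesLE y).filter (fun p => ¬ 5 ≤ p))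
    (fun p hp => ⟨Nat.prime_of_mem_primesLE (mem_filter.1 hp).1, (mem_filter.1 hp).2⟩)
  unfold sp
  linarith

theorem sum_ite_dvd_le (P : Finset ℕ) (hP : ∀ p ∈ P, p.Prime) {s : ℕ} (hs : s ≠ 0) :
    ∑ p ∈ P, (if p ∣ s then 1 / (p : ℝ) else 0) ≤ ∑ p ∈ s.primeFactors, 1 / (p : ℝ) := by
  rw [← sum_filter]
  refine sum_le_sum_of_subset_of_nonneg (fun p hp => ?_) fun _ _ _ => by positivity
  exact Nat.mem_primeFactors.2 ⟨hP p (mem_filter.1 hp).1, (mem_filter.1 hp).2, hs⟩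

theorem not_dvd_of_prime {s c p y : ℕ} (hs : 0 < s) (hc : y < c) (hpr : (s * c + 1).Prime)
    (hp : p.Prime) (hpy : p ≤ y) : ¬ p ∣ s * c + 1 := by
  intro h
  have := (Nat.prime_dvd_prime_iff_eq hp hpr).1 h
  nlinarith

/-- Two primes `s * c + 1` and `t * c + 1`. -/
theorem pair_sieve {N s t : ℕ} (hN : 2 ^ 120 ≤ N) (hs : 0 < s) (hst : s < t) :
    (((Ioc 0 N).filter (fun c => (s * c + 1).Prime ∧ (t * c + 1).Prime)).card : ℝ) ≤
      (25600 * exp 6 + 300) * (ew s * ew t * ew (t - s)) * (N / log N ^ 2) := by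
  classical
  obtain ⟨y, hy8, hlog, hyN, herr⟩ := exists_level hN
  have hl := two_le_log hy8
  have hN1 : (1 : ℝ) < N := by
    have : 1 < N := lt_of_lt_of_le (by norm_num) hN
    exact_mod_cast this
  have hlN : 0 < log N := log_pos hN1
  let Ω : ℕ → Finset ℕ := fun p => res s p ∪ res t p
  have h1 := sieve_upper Ω (sp y) hy8 (fun p hp => mem_sp hp)
    (fun p _ => union_subset (res_subset _ _) (res_subset _ _))
    (fun p hp => (card_union_le _ _).trans
      (add_le_add (card_res_le (mem_sp hp).1) (card_res_le (mem_sp hp).1))) (N + 1)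
  have hsub : (Ioc 0 N).filter (fun c => (s * c + 1).Prime ∧ (t * c + 1).Prime) ⊆
      Ioc 0 y ∪ (range (N + 1)).filter (fun n => ∀ p ∈ sp y, n % p ∉ Ω p) := by
    intro c hc
    rw [mem_filter, mem_Ioc] at hc
    by_cases hcy : c ≤ y
    · exact mem_union_left _ (mem_Ioc.2 ⟨hc.1.1, hcy⟩)
    · refine mem_union_right _ (mem_filter.2 ⟨mem_range.2 (by omega), fun p hp => ?_⟩)
      obtain ⟨hpp, -, hpy⟩ := mem_sp hp
      simp only [Ω, mem_union, mod_mem_res hpp.pos, not_or]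
      exact ⟨not_dvd_of_prime hs (not_le.1 hcy) hc.2.1 hpp hpy,
        not_dvd_of_prime (hs.trans hst) (not_le.1 hcy) hc.2.2 hpp hpy⟩
  have h2 : (((Ioc 0 N).filter (fun c => (s * c + 1).Prime ∧ (t * c + 1).Prime)).card : ℝ) ≤
      y + (((range (N + 1)).filter (fun n => ∀ p ∈ sp y, n % p ∉ Ω p)).card : ℝ) := by
    have := (card_le_card hsub).trans (card_union_le _ _)
    rw [Nat.card_Ioc, Nat.sub_zero] at this
    exact_mod_cast this
  have h3 : ∀ p ∈ sp y, 2 * (1 / (p : ℝ)) - (if p ∣ s then 1 / (p : ℝ) else 0) -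
      (if p ∣ t then 1 / (p : ℝ) else 0) - (if p ∣ t - s then 1 / (p : ℝ) else 0) ≤
      ((Ω p).card : ℝ) / p := by
    intro p hp
    obtain ⟨hpp, -, -⟩ := mem_sp hp
    have hp0 : (0 : ℝ) < p := by exact_mod_cast hpp.pos
    have hu : 0 < 1 / (p : ℝ) := by positivity
    have ha : ¬ p ∣ s → 1 / (p : ℝ) ≤ ((Ω p).card : ℝ) / p := fun h => by
      have : 1 ≤ (Ω p).card := card_pos.2 ((res_nonempty hpp h).mono subset_union_left)
      gcongr; exact_mod_cast this
    have hb : ¬ p ∣ t → 1 / (p : ℝ) ≤ ((Ω p).card : ℝ) / p := fun h => by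
      have : 1 ≤ (Ω p).card := card_pos.2 ((res_nonempty hpp h).mono subset_union_right)
      gcongr; exact_mod_cast this
    have hc : 0 ≤ ((Ω p).card : ℝ) / p := by positivity
    by_cases h1 : p ∣ s <;> by_cases h2 : p ∣ t <;> by_cases h3 : p ∣ t - s <;>
      simp only [h1, h2, h3, if_true, if_false]
    · linarith
    · linarith
    · linarith [hb h2]
    · linarith [hb h2]
    · linarith [ha h1]
    · linarith [ha h1]
    · linarith [ha h1]
    · have h4 : (Ω p).card = (res s p).card + (res t p).card :=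
        card_union_of_disjoint (disjoint_res hpp hst.le h3)
      have h5 : 2 ≤ (Ω p).card := by
        have := card_pos.2 (res_nonempty hpp h1)
        have := card_pos.2 (res_nonempty hpp h2)
        omega
      have h6 : (2 : ℝ) / p ≤ ((Ω p).card : ℝ) / p := by gcongr; exact_mod_cast h5
      have : 2 * (1 / (p : ℝ)) = 2 / p := by ring
      linarith
  have h4 := sum_le_sum h3
  rw [sum_sub_distrib, sum_sub_distrib, sum_sub_distrib, ← mul_sum] at h4
  have hP : ∀ p ∈ sp y, p.Prime := fun p hp => (mem_sp hp).1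
  have h5 := sum_ite_dvd_le (sp y) hP hs.ne'
  have h6 := sum_ite_dvd_le (sp y) hP (hs.trans hst).ne'
  have h7 := sum_ite_dvd_le (sp y) hP (Nat.sub_pos_of_lt hst).ne'
  have h8 := le_sum_sp (y := y) (by omega)
  have h9 : exp (-∑ p ∈ sp y, ((Ω p).card : ℝ) / p) ≤
      exp 6 * (ew s * ew t * ew (t - s)) / log y ^ 2 := by
    have : log y ^ 2 = exp (2 * log (log y)) := by
      rw [show (2 : ℝ) * log (log y) = (2 : ℕ) * log (log y) by norm_num, exp_nat_mul,
        exp_log (by linarith)]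
    rw [this, ew, ew, ew, ← exp_add, ← exp_add, ← exp_add, ← exp_sub]
    exact exp_le_exp.2 (by linarith)
  have hE : 1 ≤ ew s * ew t * ew (t - s) :=
    one_le_mul_of_one_le_of_one_le (one_le_mul_of_one_le_of_one_le (one_le_ew _) (one_le_ew _))
      (one_le_ew _)
  set E := ew s * ew t * ew (t - s)
  have h10 : 2 * ((N + 1 : ℕ) : ℝ) * exp (-∑ p ∈ sp y, ((Ω p).card : ℝ) / p) ≤
      25600 * exp 6 * E * (N / log N ^ 2) := by
    have h11 : ((N + 1 : ℕ) : ℝ) ≤ 2 * N := by push_cast; linarith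
    have h12 : (log N / 80) ^ 2 ≤ log y ^ 2 := by gcongr; linarith
    calc _ ≤ 2 * (2 * N) * (exp 6 * E / log y ^ 2) := by gcongr
      _ ≤ 2 * (2 * N) * (exp 6 * E / (log N / 80) ^ 2) := by gcongr
      _ = _ := by field_simp; norm_num
  have h13 : 300 * (N / log N ^ 2) ≤ 300 * E * (N / log N ^ 2) := by
    have : (0 : ℝ) ≤ N / log N ^ 2 := by positivity
    nlinarith
  calc _ ≤ y + (2 * ((N + 1 : ℕ) : ℝ) * exp (-∑ p ∈ sp y, ((Ω p).card : ℝ) / p) +
        2 * (y : ℝ) ^ 36) := by linarith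
    _ ≤ 25600 * exp 6 * E * (N / log N ^ 2) + 300 * E * (N / log N ^ 2) := by linarith
    _ = _ := by ring

end Pool.Agent.Lib.Sieve
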