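import Pool.Agent.Lib.Sieve.Selberg
import Pool.Agent.Lib.Sieve.Mertens

/-!
The upper bound sieve of dimension at most two.
-/

namespace Pool.Agent.Lib.Sieve

open Finset Real

theorem log_four_le : log 4 ≤ 3 / 2 := by
  have : log 4 = 2 * log 2 := by
    rw [show (4 : ℝ) = 2 ^ 2 by norm_num, log_pow]; norm_num
  have := log_two_lt_d9
  linarith

theorem two_le_log {y : ℕ} (hy : 8 ≤ y) : 2 ≤ log y := by
  have h1 : log 8 ≤ log y := log_le_log (by norm_num) (by exact_mod_cast hy)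
  have : log 8 = 3 * log 2 := by
    rw [show (8 : ℝ) = 2 ^ 3 by norm_num, log_pow]; norm_num
  have := log_two_gt_d9
  linarith

theorem bigG_ge (Ω : ℕ → Finset ℕ) (P : Finset ℕ) {y : ℕ} (hy : 8 ≤ y)
    (hP : ∀ p ∈ P, p.Prime ∧ 4 ≤ p ∧ p ≤ y) (h : ∀ p ∈ P, (Ω p).card ≤ 2) :
    exp (∑ p ∈ P, ((Ω p).card : ℝ) / p) / 2 ≤ bigG Ω P (y ^ 9) := by
  classical
  have hl := two_le_log hy
  have hl0 : 0 < log y := by linarith
  have hy0 : (0 : ℝ) < y := by positivity
  set κ := 1 / log y with hκ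
  have hκ0 : 0 < κ := by positivity
  have h2 : ∀ p ∈ P, 2 * (Ω p).card ≤ p := fun p hp => by
    have := h p hp; have := (hP p hp).2.1; omega
  let w : ℕ → ℝ := fun p => hw p (Ω p).card
  have hw0 : ∀ p ∈ P, 0 ≤ w p := fun p hp => hw_nonneg (h2 p hp)
  have hsplit : ∏ p ∈ P, (1 + w p) = bigG Ω P (y ^ 9) +
      ∑ S ∈ P.powerset.filter (fun S => ¬ ∏ p ∈ S, p ≤ y ^ 9), ∏ p ∈ S, w p := by
    rw [prod_one_add, bigG, sum_filter_add_sum_filter_not]
  have htail : ∑ S ∈ P.powerset.filter (fun S => ¬ ∏ p ∈ S, p ≤ y ^ 9), ∏ p ∈ S, w p ≤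
      exp (-9) * ∏ p ∈ P, (1 + w p * (p : ℝ) ^ κ) := by
    rw [prod_one_add, mul_sum]
    refine le_trans (sum_le_sum fun S hS => ?_) (sum_le_sum_of_subset_of_nonneg
      (filter_subset (fun S => ¬ ∏ p ∈ S, p ≤ y ^ 9) _) fun S hS _ => ?_)
    · have hS' := mem_powerset.1 (mem_filter.1 hS).1
      have hS2 : y ^ 9 ≤ ∏ p ∈ S, p := (not_le.1 (mem_filter.1 hS).2).le
      rw [prod_mul_distrib, Real.finsetProd_rpow _ _ (fun p _ => by positivity), ← Nat.cast_prod]
      have h3 : exp 9 ≤ ((∏ p ∈ S, p : ℕ) : ℝ) ^ κ := by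
        calc exp 9 = ((y ^ 9 : ℕ) : ℝ) ^ κ := by
              rw [rpow_def_of_pos (by positivity)]
              push_cast
              rw [log_pow, hκ]
              congr 1
              field_simp
              norm_num
          _ ≤ _ := rpow_le_rpow (by positivity) (by exact_mod_cast hS2) hκ0.le
      have h4 : 0 ≤ ∏ p ∈ S, w p := prod_nonneg fun p hp => hw0 p (hS' hp)
      calc ∏ p ∈ S, w p = exp (-9) * ((∏ p ∈ S, w p) * exp 9) := by
            rw [exp_neg]; field_simp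
        _ ≤ _ := by gcongr
    · have hS' := mem_powerset.1 hS
      exact mul_nonneg (exp_pos _).le
        (prod_nonneg fun p hp => mul_nonneg (hw0 p (hS' hp)) (by positivity))
  have hfac : ∀ p ∈ P, 1 + w p * (p : ℝ) ^ κ ≤ (1 + w p) * exp (4 * κ * (log p / p)) := by
    intro p hp
    obtain ⟨hpp, hp4, hpy⟩ := hP p hp
    have hp0 : (4 : ℝ) ≤ p := by exact_mod_cast hp4
    have hr : ((Ω p).card : ℝ) ≤ 2 := by exact_mod_cast h p hp
    have hr0 : (0 : ℝ) ≤ (Ω p).card := by positivity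
    have hlp : 0 ≤ log p := log_natCast_nonneg p
    have hu : log p * κ ≤ 1 := by
      rw [hκ, mul_one_div, div_le_one hl0]
      exact log_le_log (by linarith) (by exact_mod_cast hpy)
    have hu0 : 0 ≤ log p * κ := by positivity
    have h3 : (p : ℝ) ^ κ - 1 ≤ 2 * (log p * κ) := by
      rw [rpow_def_of_pos (by linarith)]
      have := Real.abs_exp_sub_one_le (x := log p * κ) (by rwa [abs_of_nonneg hu0])
      rw [abs_of_nonneg hu0] at this
      exact (le_abs_self _).trans this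
    have h4 : (1 + w p) * (((Ω p).card : ℝ) / p) = w p := by
      simp only [w, hw]
      have : (p : ℝ) - (Ω p).card ≠ 0 := by linarith
      field_simp
      ring
    have h5 : 1 + 4 * κ * (log p / p) ≤ exp (4 * κ * (log p / p)) := by
      have := add_one_le_exp (4 * κ * (log p / p)); linarith
    have h6 : ((Ω p).card : ℝ) / p * (2 * (log p * κ)) ≤ 4 * κ * (log p / p) := by
      calc ((Ω p).card : ℝ) / p * (2 * (log p * κ)) ≤ 2 / p * (2 * (log p * κ)) := by gcongr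
        _ = _ := by ring
    have hw := hw0 p hp
    calc 1 + w p * (p : ℝ) ^ κ = (1 + w p) + w p * ((p : ℝ) ^ κ - 1) := by ring
      _ ≤ (1 + w p) + w p * (2 * (log p * κ)) := by gcongr
      _ = (1 + w p) * (1 + ((Ω p).card : ℝ) / p * (2 * (log p * κ))) := by
          linear_combination (-(2 * (log p * κ))) * h4
      _ ≤ _ := by
          apply mul_le_mul_of_nonneg_left _ (by linarith)
          linarith
  have hsum : 4 * κ * ∑ p ∈ P, log p / p ≤ 7 := by
    have h3 : ∑ p ∈ P, log p / p ≤ ∑ p ∈ Nat.primesLE y, log p / p := by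
      refine sum_le_sum_of_subset_of_nonneg (fun p hp => ?_) fun p _ _ => ?_
      · exact Nat.mem_primesLE.2 ⟨(hP p hp).2.2, (hP p hp).1⟩
      · have := log_natCast_nonneg p; positivity
    have h4 := sum_log_div_le (N := y) (by omega)
    have h5 := log_four_le
    calc 4 * κ * ∑ p ∈ P, log p / p ≤ 4 * κ * (log y + 3 / 2) := by
          apply mul_le_mul_of_nonneg_left _ (by positivity); linarith
      _ = 4 * (log y + 3 / 2) / log y := by rw [hκ]; ring
      _ ≤ 7 := by rw [div_le_iff₀ hl0]; linarith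
  have hprod : ∏ p ∈ P, (1 + w p * (p : ℝ) ^ κ) ≤ (∏ p ∈ P, (1 + w p)) * exp 7 := by
    calc ∏ p ∈ P, (1 + w p * (p : ℝ) ^ κ)
        ≤ ∏ p ∈ P, ((1 + w p) * exp (4 * κ * (log p / p))) :=
          prod_le_prod (fun p hp => by have := hw0 p hp; positivity) hfac
      _ = (∏ p ∈ P, (1 + w p)) * exp (4 * κ * ∑ p ∈ P, log p / p) := by
          rw [prod_mul_distrib, mul_sum, exp_sum]
      _ ≤ _ := by
          apply mul_le_mul_of_nonneg_left (exp_le_exp.2 hsum)
          exact prod_nonneg fun p hp => by have := hw0 p hp; positivity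
  have hpos : 0 ≤ ∏ p ∈ P, (1 + w p) := prod_nonneg fun p hp => by have := hw0 p hp; positivity
  have he : exp (-9) * exp 7 ≤ 1 / 2 := by
    rw [← exp_add]
    have : exp (-9 + 7) = (exp 2)⁻¹ := by rw [← exp_neg]; norm_num
    rw [this]
    have h3 : 2 ≤ exp 2 := by have := add_one_le_exp 2; linarith
    rw [inv_eq_one_div]
    exact one_div_le_one_div_of_le (by norm_num) h3
  have hlow : exp (∑ p ∈ P, ((Ω p).card : ℝ) / p) ≤ ∏ p ∈ P, (1 + w p) := by
    rw [exp_sum]
    refine prod_le_prod (fun p _ => (exp_pos _).le) fun p hp => ?_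
    obtain ⟨hpp, hp4, hpy⟩ := hP p hp
    have hp0 : (4 : ℝ) ≤ p := by exact_mod_cast hp4
    have hr : ((Ω p).card : ℝ) ≤ 2 := by exact_mod_cast h p hp
    have h4 : 1 + w p = (1 - ((Ω p).card : ℝ) / p)⁻¹ := by
      simp only [w, hw]
      have : (p : ℝ) - (Ω p).card ≠ 0 := by linarith
      field_simp
      ring
    have h5 : 0 < 1 - ((Ω p).card : ℝ) / p := by
      rw [sub_pos, div_lt_one (by linarith)]; linarith
    rw [h4, le_inv_comm₀ (exp_pos _) h5, ← exp_neg]
    have := add_one_le_exp (-(((Ω p).card : ℝ) / p))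
    linarith
  have : exp (-9) * ∏ p ∈ P, (1 + w p * (p : ℝ) ^ κ) ≤ (∏ p ∈ P, (1 + w p)) / 2 := by
    calc _ ≤ exp (-9) * ((∏ p ∈ P, (1 + w p)) * exp 7) := by gcongr
      _ = (∏ p ∈ P, (1 + w p)) * (exp (-9) * exp 7) := by ring
      _ ≤ (∏ p ∈ P, (1 + w p)) * (1 / 2) := by gcongr
      _ = _ := by ring
  linarith

/-- Upper bound sieve: at most two residue classes removed for each prime of `P`. -/
theorem sieve_upper (Ω : ℕ → Finset ℕ) (P : Finset ℕ) {y : ℕ} (hy : 8 ≤ y)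
    (hP : ∀ p ∈ P, p.Prime ∧ 4 ≤ p ∧ p ≤ y) (hΩ : ∀ p ∈ P, Ω p ⊆ range p)
    (h : ∀ p ∈ P, (Ω p).card ≤ 2) (N : ℕ) :
    (((range N).filter (fun n => ∀ p ∈ P, n % p ∉ Ω p)).card : ℝ) ≤
      2 * N * exp (-∑ p ∈ P, ((Ω p).card : ℝ) / p) + 2 * (y : ℝ) ^ 36 := by
  have h2 : ∀ p ∈ P, 2 * (Ω p).card ≤ p := fun p hp => by
    have := h p hp; have := (hP p hp).2.1; omega
  have h1 := selberg_sieve Ω P (fun p hp => (hP p hp).1) hΩ h2 (D := y ^ 9)
    (Nat.one_le_pow _ _ (by omega)) N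
  have h3 := bigG_ge Ω P hy hP h
  refine h1.trans (add_le_add ?_ (le_of_eq ?_))
  · calc (N : ℝ) / bigG Ω P (y ^ 9) ≤ N / (exp (∑ p ∈ P, ((Ω p).card : ℝ) / p) / 2) := by
          gcongr
      _ = _ := by rw [exp_neg]; field_simp
  · push_cast; ring

end Pool.Agent.Lib.Sieve
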