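import Pool.Agent.Lib.Sieve.Upper

/-!
Bounds for the series of a nonprincipal Dirichlet character and its derivatives at real points
to the right of one.
-/

namespace Pool.Agent.Lib.Sieve

open Finset Real

theorem abel_ineq (u : ℕ → ℂ) (w : ℕ → ℝ) {B : ℝ} {M : ℕ}
    (hu : ∀ k, ‖∑ n ∈ Ico M (M + k), u n‖ ≤ B) (hw0 : ∀ n, 0 ≤ w n)
    (hw : ∀ n, M ≤ n → w (n + 1) ≤ w n) (k : ℕ) :
    ‖∑ n ∈ Ico M (M + k), u n * w n‖ ≤ B * w M := by
  have key : ∀ k, ‖∑ n ∈ Ico M (M + k), u n * w n -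
      (∑ n ∈ Ico M (M + k), u n) * w (M + k)‖ ≤ B * (w M - w (M + k)) := by
    intro k
    induction k with
    | zero => simp
    | succ k ih =>
      have h1 := hu (k + 1)
      rw [← add_assoc] at h1 ⊢
      rw [sum_Ico_succ_top (Nat.le_add_right _ _)] at h1
      rw [sum_Ico_succ_top (Nat.le_add_right _ _), sum_Ico_succ_top (Nat.le_add_right _ _)]
      have h2 : 0 ≤ w (M + k) - w (M + k + 1) := by
        have := hw (M + k) (Nat.le_add_right _ _); linarith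
      have h3 : ∑ n ∈ Ico M (M + k), u n * w n + u (M + k) * w (M + k) -
          (∑ n ∈ Ico M (M + k), u n + u (M + k)) * w (M + k + 1) =
          (∑ n ∈ Ico M (M + k), u n * w n - (∑ n ∈ Ico M (M + k), u n) * w (M + k)) +
          (∑ n ∈ Ico M (M + k), u n + u (M + k)) * ((w (M + k) - w (M + k + 1) : ℝ) : ℂ) := by
        push_cast; ring
      rw [h3]
      refine (norm_add_le _ _).trans ?_
      rw [norm_mul, Complex.norm_real, Real.norm_of_nonneg h2]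
      have := mul_le_mul_of_nonneg_right h1 h2
      linarith
  have h1 := key k
  have h2 : ‖(∑ n ∈ Ico M (M + k), u n) * (w (M + k) : ℂ)‖ ≤ B * w (M + k) := by
    rw [norm_mul, Complex.norm_real, Real.norm_of_nonneg (hw0 _)]
    exact mul_le_mul_of_nonneg_right (hu k) (hw0 _)
  have h3 := norm_add_le (∑ n ∈ Ico M (M + k), u n * w n -
      (∑ n ∈ Ico M (M + k), u n) * w (M + k)) ((∑ n ∈ Ico M (M + k), u n) * (w (M + k) : ℂ))
  rw [sub_add_cancel] at h3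
  linarith

theorem sum_range_char_eq_zero {q : ℕ} [NeZero q] {χ : DirichletCharacter ℂ q} (hχ : χ ≠ 1) :
    ∑ n ∈ range q, χ (n : ZMod q) = 0 := by
  rw [← MulChar.sum_eq_zero_of_ne_one hχ]
  refine sum_nbij' (fun n => (n : ZMod q)) (fun x => x.val) ?_ ?_ ?_ ?_ ?_
  · intro n _; simp
  · intro x _; simp [ZMod.val_lt]
  · intro n hn; exact ZMod.val_cast_of_lt (mem_range.1 hn)
  · intro x _; simp
  · intro n _; rfl

theorem norm_sum_range_char_le {q : ℕ} [NeZero q] {χ : DirichletCharacter ℂ q} (hχ : χ ≠ 1)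
    (N : ℕ) : ‖∑ n ∈ range N, χ (n : ZMod q)‖ ≤ q := by
  have h1 : ∀ k, ∑ n ∈ range (q * k), χ (n : ZMod q) = 0 := by
    intro k
    induction k with
    | zero => simp
    | succ k ih =>
      rw [Nat.mul_succ, sum_range_add, ih, zero_add, ← sum_range_char_eq_zero hχ]
      refine sum_congr rfl fun x _ => ?_
      simp
  have hN : N = q * (N / q) + N % q := (Nat.div_add_mod N q).symm
  have hr : N % q < q := Nat.mod_lt _ (NeZero.pos q)
  rw [hN, sum_range_add, h1, zero_add]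
  calc _ ≤ ∑ x ∈ range (N % q), ‖χ ((q * (N / q) + x : ℕ) : ZMod q)‖ := norm_sum_le _ _
    _ ≤ ∑ x ∈ range (N % q), (1 : ℝ) := sum_le_sum fun _ _ => χ.norm_le_one _
    _ ≤ q := by simp; exact_mod_cast hr.le

theorem norm_sum_Ico_char_le {q : ℕ} [NeZero q] {χ : DirichletCharacter ℂ q} (hχ : χ ≠ 1)
    (M k : ℕ) : ‖∑ n ∈ Ico M (M + k), χ (n : ZMod q)‖ ≤ 2 * q := by
  rw [sum_Ico_eq_sub _ (Nat.le_add_right _ _)]
  have := norm_sum_range_char_le hχ (M + k)
  have := norm_sum_range_char_le hχ M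
  refine (norm_sub_le _ _).trans ?_
  linarith

/-- The weight `(log n) ^ k / n ^ σ`. -/
noncomputable def wk (k : ℕ) (σ : ℝ) (n : ℕ) : ℝ := log n ^ k * (n : ℝ) ^ (-σ)

theorem wk_nonneg (k : ℕ) (σ : ℝ) (n : ℕ) : 0 ≤ wk k σ n :=
  mul_nonneg (pow_nonneg (log_natCast_nonneg n) _) (by positivity)

theorem wk_zero (k : ℕ) {σ : ℝ} (hσ : 1 ≤ σ) : wk k σ 0 = 0 := by
  unfold wk
  rw [Nat.cast_zero, zero_rpow (by linarith), mul_zero]

theorem wk_le {k : ℕ} {σ : ℝ} (hσ : 1 ≤ σ) {n M : ℕ} (hn : 1 ≤ n) (hM : n ≤ M) :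
    wk k σ n ≤ log M ^ k * (1 / n) := by
  have hn' : (1 : ℝ) ≤ n := by exact_mod_cast hn
  unfold wk
  apply mul_le_mul
  · exact pow_le_pow_left₀ (log_natCast_nonneg n)
      (log_le_log (by linarith) (by exact_mod_cast hM)) _
  · rw [one_div, ← rpow_neg_one]
    exact rpow_le_rpow_of_exponent_le hn' (by linarith)
  · positivity
  · exact pow_nonneg (log_natCast_nonneg M) _

theorem wk_succ_le {k : ℕ} (hk : k ≤ 2) {σ : ℝ} (hσ : 1 ≤ σ) {n : ℕ} (hn : 8 ≤ n) :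
    wk k σ (n + 1) ≤ wk k σ n := by
  have key : ∀ m : ℕ, 1 ≤ m → wk k σ m = (log m / √m) ^ k * (m : ℝ) ^ ((k : ℝ) / 2 - σ) := by
    intro m hm
    have hm' : (0 : ℝ) < m := by exact_mod_cast hm
    unfold wk
    rw [div_pow, sqrt_eq_rpow, ← rpow_natCast ((m : ℝ) ^ (1 / 2 : ℝ)), ← rpow_mul hm'.le,
      rpow_sub hm', rpow_neg hm'.le]
    have : (1 / 2 : ℝ) * k = k / 2 := by ring
    rw [this]
    have : (m : ℝ) ^ ((k : ℝ) / 2) ≠ 0 := (rpow_pos_of_pos hm' _).ne'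
    field_simp
  rw [key n (by omega), key (n + 1) (by omega)]
  have hn' : (8 : ℝ) ≤ n := by exact_mod_cast hn
  have he : exp 2 ≤ n := by
    have h1 : exp 2 = exp 1 ^ 2 := by rw [← exp_nat_mul]; norm_num
    have h2 := exp_one_lt_d9
    have h3 : exp 1 ^ 2 ≤ 2.7182818286 ^ 2 := by gcongr
    linarith
  have hle : (n : ℝ) ≤ ((n + 1 : ℕ) : ℝ) := by push_cast; linarith
  apply mul_le_mul
  · apply pow_le_pow_left₀
    · exact div_nonneg (log_natCast_nonneg _) (sqrt_nonneg _)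
    · exact log_div_sqrt_antitoneOn he (he.trans hle) hle
  · have hk' : (k : ℝ) ≤ 2 := by exact_mod_cast hk
    exact rpow_le_rpow_of_nonpos (by linarith) hle (by linarith)
  · positivity
  · exact pow_nonneg (div_nonneg (log_natCast_nonneg _) (sqrt_nonneg _)) _

theorem norm_sum_char_wk_le {q : ℕ} [NeZero q] {χ : DirichletCharacter ℂ q} (hχ : χ ≠ 1)
    {k : ℕ} (hk : k ≤ 2) {σ : ℝ} (hσ : 1 ≤ σ) {M : ℕ} (hM : 8 ≤ M) (hq : q ≤ M) (j : ℕ) :
    ‖∑ n ∈ range (M + j), χ (n : ZMod q) * (wk k σ n : ℂ)‖ ≤ 3 * log M ^ 3 := by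
  have hl := two_le_log hM
  have hM' : (8 : ℝ) ≤ M := by exact_mod_cast hM
  rw [range_eq_Ico, ← sum_Ico_consecutive _ (Nat.zero_le M) (Nat.le_add_right M j)]
  have h1 := abel_ineq (fun n => χ (n : ZMod q)) (wk k σ) (norm_sum_Ico_char_le hχ M)
    (wk_nonneg k σ) (fun n hn => wk_succ_le hk hσ (hM.trans hn)) j
  have h2 : 2 * q * wk k σ M ≤ 2 * log M ^ k := by
    have h3 := wk_le (k := k) hσ (show 1 ≤ M by omega) le_rfl
    have h4 : (q : ℝ) ≤ M := by exact_mod_cast hq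
    calc 2 * q * wk k σ M ≤ 2 * M * (log M ^ k * (1 / M)) := by
          have := wk_nonneg k σ M
          gcongr
      _ = _ := by field_simp
  have h3 : ‖∑ n ∈ Ico 0 M, χ (n : ZMod q) * (wk k σ n : ℂ)‖ ≤ log M ^ k * (1 + log M) := by
    calc _ ≤ ∑ n ∈ Ico 0 M, ‖χ (n : ZMod q) * (wk k σ n : ℂ)‖ := norm_sum_le _ _
      _ ≤ ∑ n ∈ Ico 0 M, wk k σ n := by
          refine sum_le_sum fun n _ => ?_
          rw [norm_mul, Complex.norm_real, Real.norm_of_nonneg (wk_nonneg _ _ _)]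
          exact mul_le_of_le_one_left (wk_nonneg _ _ _) (χ.norm_le_one _)
      _ ≤ ∑ n ∈ Ioc 0 M, wk k σ n := by
          rw [sum_eq_sum_Ico_succ_bot (by omega : 0 < M), wk_zero k hσ, zero_add]
          refine sum_le_sum_of_subset_of_nonneg (fun n hn => ?_) fun n _ _ => wk_nonneg _ _ _
          rw [mem_Ico] at hn; rw [mem_Ioc]; omega
      _ ≤ ∑ n ∈ Ioc 0 M, log M ^ k * (1 / (n : ℝ)) :=
          sum_le_sum fun n hn => wk_le hσ (mem_Ioc.1 hn).1 (mem_Ioc.1 hn).2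
      _ ≤ log M ^ k * (1 + log M) := by
          rw [← mul_sum]
          exact mul_le_mul_of_nonneg_left (sum_inv_Ioc_le M) (by positivity)
  have h4 : log M ^ k ≤ log M ^ 2 := pow_le_pow_right₀ (by linarith) hk
  refine (norm_add_le _ _).trans ?_
  calc _ ≤ log M ^ k * (3 + log M) := by linarith
    _ ≤ log M ^ 2 * (3 * log M) := by gcongr; linarith
    _ = _ := by ring

theorem term_eq_wk {f a : ℕ → ℂ} {k : ℕ} (hf : ∀ n, f n = Complex.log n ^ k * a n) {σ : ℝ}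
    (hσ : 1 ≤ σ) (n : ℕ) : LSeries.term f σ n = a n * (wk k σ n : ℂ) := by
  rcases eq_or_ne n 0 with rfl | hn
  · rw [wk_zero k hσ]; simp
  · rw [LSeries.term_of_ne_zero hn, hf, wk]
    push_cast
    rw [Complex.ofReal_cpow (by positivity), ← Complex.natCast_log]
    push_cast
    rw [Complex.cpow_neg]
    ring

theorem norm_LSeries_char_le {q : ℕ} [NeZero q] {χ : DirichletCharacter ℂ q} (hχ : χ ≠ 1)
    {k : ℕ} (hk : k ≤ 2) {σ : ℝ} (hσ : 1 ≤ σ) {M : ℕ} (hM : 8 ≤ M) (hq : q ≤ M)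
    {f : ℕ → ℂ} (hf : ∀ n, f n = Complex.log n ^ k * χ (n : ZMod q))
    (hs : LSeriesSummable f σ) : ‖LSeries f σ‖ ≤ 3 * log M ^ 3 := by
  have h1 := (hs.hasSum.tendsto_sum_nat.comp (Filter.tendsto_add_atTop_nat M)).norm
  refine le_of_tendsto' h1 fun j => ?_
  simp only [Function.comp, term_eq_wk hf hσ]
  rw [add_comm]
  exact norm_sum_char_wk_le hχ hk hσ hM hq j

end Pool.Agent.Lib.Sieve
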