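import Pool.Agent.Lib.Sieve.CharLower

/-!
The series `∑ Λ n * log n / n ^ σ` over the residue class one, for moduli without small values.
-/

namespace Pool.Agent.Lib.Sieve

open Finset Real LSeries
open ArithmeticFunction (vonMangoldt vonMangoldt_nonneg vonMangoldt_le_log)

/-- The term `Λ n * log n / n ^ σ`. -/
noncomputable def p2 (σ : ℝ) (n : ℕ) : ℝ := vonMangoldt n * wk 1 σ n

theorem p2_nonneg (σ : ℝ) (n : ℕ) : 0 ≤ p2 σ n := mul_nonneg vonMangoldt_nonneg (wk_nonneg _ _ _)

theorem hasSum_P2 {q : ℕ} (χ : DirichletCharacter ℂ q) {σ : ℝ} (hσ : 1 < σ) :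
    HasSum (fun n : ℕ => χ (n : ZMod q) * (p2 σ n : ℂ)) (LSeries (logMul (cv χ)) σ) := by
  have h1 := (LSeriesSummable_logMul_of_lt_re (absc_cv χ (z := σ) (by simpa using hσ))).hasSum
  have h2 := term_eq_wk (f := logMul (cv χ)) (a := cv χ) (k := 1) (fun n => by simp) hσ.le
  convert h1 using 1
  · ext n; rw [h2, p2, cv]; push_cast; ring
  · rfl

theorem triv_apply (n : ℕ) : (1 : DirichletCharacter ℂ 1) (n : ZMod 1) = 1 :=
  MulChar.one_apply (isUnit_of_subsingleton _)

theorem summable_p2 {σ : ℝ} (hσ : 1 < σ) : Summable (p2 σ) := by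
  have h := (hasSum_P2 (1 : DirichletCharacter ℂ 1) hσ).summable
  simp only [triv_apply, one_mul] at h
  exact Complex.summable_ofReal.1 h

theorem zeta_P2 : ∃ C : ℝ, ∀ σ : ℝ, 1 < σ → σ ≤ 2 →
    |∑' n, p2 σ n - 1 / (σ - 1) ^ 2| ≤ C := by
  set χ := (1 : DirichletCharacter ℂ 1) with hχ
  set H := DirichletCharacter.LFunctionTrivChar₁ 1 with hH
  have hHd : Differentiable ℂ H := DirichletCharacter.differentiable_LFunctionTrivChar₁ 1
  have hHa : ∀ z, AnalyticAt ℂ H z := fun z => hHd.analyticAt z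
  have hU : ∀ z : ℂ, 1 < z.re → H z = (z - 1) * LSeries (cs χ) z := by
    intro z hz
    have hz1 : z ≠ 1 := by rintro rfl; simp at hz
    rw [hH, DirichletCharacter.LFunctionTrivChar₁, Function.update_of_ne hz1,
      DirichletCharacter.LFunctionTrivChar, DirichletCharacter.LFunction_eq_LSeries _ hz]
    rfl
  have hne : ∀ t : ℝ, 1 ≤ t → H t ≠ 0 := by
    intro t ht
    rcases ht.eq_or_lt with rfl | ht
    · exact DirichletCharacter.LFunctionTrivChar₁_apply_one_ne_zero 1
    · have hz : 1 < (t : ℂ).re := by simpa using ht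
      rw [hU _ hz]
      refine mul_ne_zero (sub_ne_zero.2 ?_) (χ.LSeries_ne_zero_of_one_lt_re hz)
      exact_mod_cast ht.ne'
  let g : ℂ → ℂ := fun z => deriv H z / H z
  have hg : ∀ t : ℝ, 1 ≤ t → AnalyticAt ℂ g t := fun t ht =>
    (hHa t).deriv.div (hHa t) (hne t ht)
  have hcont : ContinuousOn (fun t : ℝ => deriv g t) (Set.Icc 1 2) := fun t ht =>
    ((hg t ht.1).deriv.continuousAt.comp (f := fun t : ℝ => (t : ℂ))
      Complex.continuous_ofReal.continuousAt).continuousWithinAt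
  obtain ⟨C, hC⟩ := isCompact_Icc.exists_bound_of_continuousOn hcont
  refine ⟨C, fun σ h1 h2 => ?_⟩
  have hopen : IsOpen {z : ℂ | 1 < z.re} := isOpen_lt continuous_const Complex.continuous_re
  have hP1 : ∀ z : ℂ, 1 < z.re → LSeries (cv χ) z = (z - 1)⁻¹ - g z := by
    intro z hz
    have hz1 : z - 1 ≠ 0 := by rw [sub_ne_zero]; rintro rfl; simp at hz
    have h3 : H =ᶠ[nhds z] fun w => (w - 1) * LSeries (cs χ) w := by
      filter_upwards [hopen.mem_nhds hz] with w hw using hU w hw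
    have h4 := (((hasDerivAt_id z).sub_const 1).mul
      (LSeries_hasDerivAt (absc_cs χ hz))).congr_of_eventuallyEq h3
    have h5 := cv_mul_cs χ hz
    have h6 : LSeries (cs χ) z ≠ 0 := χ.LSeries_ne_zero_of_one_lt_re hz
    simp only [g]
    rw [h4.deriv, hU z hz, ← h5]
    simp only [id]
    field_simp
    ring
  have hz : 1 < (σ : ℂ).re := by simpa using h1
  have hz1 : (σ : ℂ) - 1 ≠ 0 := by rw [sub_ne_zero]; exact_mod_cast h1.ne'
  have h3 : LSeries (cv χ) =ᶠ[nhds (σ : ℂ)] fun w => (w - 1)⁻¹ - g w := by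
    filter_upwards [hopen.mem_nhds hz] with w hw using hP1 w hw
  have h4 := ((((hasDerivAt_id (σ : ℂ)).sub_const 1).inv hz1).sub
    (hg σ h1.le).differentiableAt.hasDerivAt).congr_of_eventuallyEq h3
  have h5 := h4.unique (LSeries_hasDerivAt (absc_cv χ hz))
  have h6 := hasSum_P2 χ h1
  simp only [hχ, triv_apply, one_mul] at h6
  have h7 : ((∑' n, p2 σ n - 1 / (σ - 1) ^ 2 : ℝ) : ℂ) = deriv g σ := by
    push_cast
    rw [h6.tsum_eq]
    simp only [id] at h5
    linear_combination h5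
  have h8 := hC σ ⟨h1.le, h2⟩
  rwa [← h7, Complex.norm_real, Real.norm_eq_abs] at h8

theorem sum_biUnion_le {ι κ : Type*} [DecidableEq κ] (I : Finset ι) (S : ι → Finset κ)
    (f : κ → ℝ) (hf : ∀ x, 0 ≤ f x) :
    ∑ x ∈ I.biUnion S, f x ≤ ∑ i ∈ I, ∑ x ∈ S i, f x := by
  classical
  induction I using Finset.induction_on with
  | empty => simp
  | insert i I hi ih =>
    rw [biUnion_insert, sum_insert hi]
    have h1 := sum_union_inter (s₁ := S i) (s₂ := I.biUnion S) (f := f)
    have h2 : 0 ≤ ∑ x ∈ S i ∩ I.biUnion S, f x := sum_nonneg fun x _ => hf x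
    linarith

theorem tsum_noncoprime_le {s : ℕ} (hs : s ≠ 0) {σ : ℝ} (hσ : 1 < σ) :
    ∑' n : ℕ, (if n.Coprime s then 0 else p2 σ n) ≤ 8 * s * log s := by
  classical
  have hl : 0 ≤ log s := log_natCast_nonneg s
  refine Real.tsum_le_of_sum_le (fun n => ?_) fun u => ?_
  · simp only [Pi.zero_apply]; split_ifs; exacts [le_rfl, p2_nonneg _ _]
  let g : ℕ → ℝ := fun n => (n : ℝ) ^ (-(1 / 2) : ℝ)
  let S : ℕ → Finset ℕ := fun p => u.filter (fun n => n ∈ Submonoid.closure (({p} : Finset ℕ) : Set ℕ))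
  have hg0 : ∀ n, 0 ≤ g n := fun n => by positivity
  have h1 : ∀ n ∈ u, (if n.Coprime s then 0 else p2 σ n) ≤
      if n ∈ s.primeFactors.biUnion S then 2 * log s * g n else 0 := by
    intro n hn
    have h0 : 0 ≤ 2 * log s * g n := mul_nonneg (by positivity) (hg0 n)
    by_cases hc : n.Coprime s
    · rw [if_pos hc]; split_ifs; exacts [h0, le_rfl]
    rw [if_neg hc]
    by_cases hΛ : IsPrimePow n
    · obtain ⟨p, k, hp, hk, rfl⟩ := (isPrimePow_nat_iff _).1 hΛ
      have hps : p ∣ s := by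
        by_contra h
        exact hc (Nat.Coprime.pow_left k ((Nat.Prime.coprime_iff_not_dvd hp).2 h))
      rw [if_pos]
      · have hn1 : 1 ≤ p ^ k := Nat.one_le_pow _ _ hp.pos
        have hn0 : (0 : ℝ) < (p ^ k : ℕ) := by exact_mod_cast hn1
        have h2 : vonMangoldt (p ^ k) ≤ log s := by
          rw [ArithmeticFunction.vonMangoldt_apply_pow hk.ne',
            ArithmeticFunction.vonMangoldt_apply_prime hp]
          exact log_le_log (by exact_mod_cast hp.pos)
            (by exact_mod_cast Nat.le_of_dvd (Nat.pos_of_ne_zero hs) hps)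
        have h3 := wk_le (k := 1) hσ.le hn1 le_rfl
        have h4 := log_le_rpow_div hn0.le (show (0 : ℝ) < 1 / 2 by norm_num)
        have h5 : g (p ^ k) = ((p ^ k : ℕ) : ℝ) ^ (1 / 2 : ℝ) * (1 / (p ^ k : ℕ)) := by
          simp only [g]
          rw [one_div ((p ^ k : ℕ) : ℝ), ← rpow_neg_one, ← rpow_add hn0]; norm_num
        have h6 : wk 1 σ (p ^ k) ≤ 2 * g (p ^ k) := by
          rw [h5]
          refine h3.trans ?_
          rw [pow_one, ← mul_assoc]
          apply mul_le_mul_of_nonneg_right _ (by positivity)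
          linarith
        calc p2 σ (p ^ k) ≤ log s * (2 * g (p ^ k)) :=
              mul_le_mul h2 h6 (wk_nonneg _ _ _) hl
          _ = _ := by ring
      · refine mem_biUnion.2 ⟨p, Nat.mem_primeFactors.2 ⟨hp, hps, hs⟩, mem_filter.2 ⟨hn, ?_⟩⟩
        exact Submonoid.pow_mem _ (Submonoid.subset_closure (by simp)) _
    · have : p2 σ n = 0 := by
        rw [p2, ArithmeticFunction.vonMangoldt_eq_zero_iff.2 hΛ, zero_mul]
      rw [this]; split_ifs; exacts [h0, le_rfl]
  have h2 : ∀ p ∈ s.primeFactors, ∑ n ∈ S p, g n ≤ 4 := by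
    intro p hp
    have hp2 : (2 : ℝ) ≤ p := by exact_mod_cast (Nat.prime_of_mem_primeFactors hp).two_le
    have h3 : g p ≤ 3 / 4 := by
      calc g p ≤ (16 / 9 : ℝ) ^ (-(1 / 2) : ℝ) :=
            rpow_le_rpow_of_nonpos (by norm_num) (by linarith) (by norm_num)
        _ = 3 / 4 := by
            rw [show (16 / 9 : ℝ) = (4 / 3) ^ (2 : ℝ) by norm_num, ← rpow_mul (by norm_num)]
            norm_num
    have h4 := sum_le_prod_inv g hg0 (by simp [g]) (fun a b => by
      simp only [g]; push_cast; rw [mul_rpow (by positivity) (by positivity)]) {p}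
      (fun q hq => by rw [mem_singleton.1 hq]; linarith) (S p) (fun v hv => (mem_filter.1 hv).2)
    rw [prod_singleton] at h4
    refine h4.trans ?_
    rw [inv_le_comm₀ (by linarith) (by norm_num)]
    linarith
  have h3 : (s.primeFactors.card : ℝ) ≤ s := by
    have : s.primeFactors ⊆ Ioc 0 s := fun p hp =>
      mem_Ioc.2 ⟨(Nat.prime_of_mem_primeFactors hp).pos, Nat.le_of_mem_primeFactors hp⟩
    have := card_le_card this
    rw [Nat.card_Ioc, Nat.sub_zero] at this
    exact_mod_cast this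
  calc _ ≤ ∑ n ∈ u, if n ∈ s.primeFactors.biUnion S then 2 * log s * g n else 0 := sum_le_sum h1
    _ ≤ ∑ n ∈ s.primeFactors.biUnion S, 2 * log s * g n := by
        rw [sum_ite_mem]
        exact sum_le_sum_of_subset_of_nonneg inter_subset_right
          fun n _ _ => mul_nonneg (by positivity) (hg0 n)
    _ ≤ 2 * log s * ∑ p ∈ s.primeFactors, ∑ n ∈ S p, g n := by
        rw [← mul_sum]
        exact mul_le_mul_of_nonneg_left (sum_biUnion_le _ _ _ hg0) (by positivity)
    _ ≤ 2 * log s * ∑ p ∈ s.primeFactors, (4 : ℝ) := by gcongr with p hp; exact h2 p hp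
    _ ≤ 2 * log s * (s * 4) := by rw [sum_const, nsmul_eq_mul]; gcongr
    _ = _ := by ring

/-- The series over the residue class one modulo `s`. -/
noncomputable def clsOne (s : ℕ) (σ : ℝ) (n : ℕ) : ℝ := if (n : ZMod s) = 1 then p2 σ n else 0

theorem summable_clsOne (s : ℕ) {σ : ℝ} (hσ : 1 < σ) : Summable (clsOne s σ) :=
  Summable.of_nonneg_of_le (fun n => by unfold clsOne; split_ifs; exacts [p2_nonneg _ _, le_rfl])
    (fun n => by unfold clsOne; split_ifs; exacts [le_rfl, p2_nonneg _ _]) (summable_p2 hσ)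

theorem abs_clsOne_sub_le {s : ℕ} [NeZero s] {σ : ℝ} (hσ : 1 < σ) {E : ℝ} (hE : 0 ≤ E)
    (h : ∀ χ : DirichletCharacter ℂ s, χ ≠ 1 → ‖LSeries (logMul (cv χ)) σ‖ ≤ E) :
    |s.totient * ∑' n, clsOne s σ n - ∑' n, p2 σ n| ≤ s * E + 8 * s * log s := by
  classical
  have h1 : HasSum (fun n : ℕ => ∑ χ : DirichletCharacter ℂ s, χ (n : ZMod s) * (p2 σ n : ℂ))
      (∑ χ : DirichletCharacter ℂ s, LSeries (logMul (cv χ)) σ) :=
    hasSum_sum fun χ _ => hasSum_P2 χ hσ
  have h2 : HasSum (fun n : ℕ => ((s.totient * clsOne s σ n : ℝ) : ℂ))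
      ((s.totient * ∑' n, clsOne s σ n : ℝ) : ℂ) :=
    Complex.hasSum_ofReal.2 ((summable_clsOne s hσ).hasSum.mul_left _)
  have h3 : ((s.totient * ∑' n, clsOne s σ n : ℝ) : ℂ) =
      ∑ χ : DirichletCharacter ℂ s, LSeries (logMul (cv χ)) σ := by
    refine h2.unique ?_
    convert h1 using 2 with n
    rw [← sum_mul, DirichletCharacter.sum_characters_eq, clsOne]
    split_ifs <;> simp
  have sN : Summable (fun n : ℕ => if n.Coprime s then 0 else p2 σ n) :=
    Summable.of_nonneg_of_le (fun n => by split_ifs; exacts [le_rfl, p2_nonneg _ _])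
      (fun n => by split_ifs; exacts [p2_nonneg _ _, le_rfl]) (summable_p2 hσ)
  have h4 : LSeries (logMul (cv (1 : DirichletCharacter ℂ s))) σ =
      ((∑' n, p2 σ n - ∑' n : ℕ, (if n.Coprime s then 0 else p2 σ n) : ℝ) : ℂ) := by
    refine (hasSum_P2 _ hσ).unique ?_
    convert Complex.hasSum_ofReal.2 ((summable_p2 hσ).hasSum.sub sN.hasSum) using 2 with n
    split_ifs with hc
    · rw [MulChar.one_apply ((ZMod.isUnit_iff_coprime _ _).2 hc)]; simp
    · rw [MulChar.map_nonunit _ (by rwa [ZMod.isUnit_iff_coprime])]; simp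
  rw [← add_sum_erase _ _ (mem_univ 1), h4] at h3
  have h5 : ‖∑ χ ∈ (univ : Finset (DirichletCharacter ℂ s)).erase 1,
      LSeries (logMul (cv χ)) σ‖ ≤ s * E := by
    refine (norm_sum_le _ _).trans ?_
    refine (sum_le_sum fun χ hχ => h χ (mem_erase.1 hχ).1).trans ?_
    rw [sum_const, nsmul_eq_mul]
    apply mul_le_mul_of_nonneg_right _ hE
    have h6 : ((univ : Finset (DirichletCharacter ℂ s)).erase 1).card ≤ s := by
      refine (card_erase_le).trans ?_
      rw [card_univ, ← Nat.card_eq_fintype_card,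
        DirichletCharacter.card_eq_totient_of_hasEnoughRootsOfUnity]
      exact Nat.totient_le s
    exact_mod_cast h6
  have h6 := tsum_noncoprime_le (NeZero.ne s) hσ
  have h7 : 0 ≤ ∑' n : ℕ, (if n.Coprime s then 0 else p2 σ n) :=
    tsum_nonneg fun n => by split_ifs; exacts [le_rfl, p2_nonneg _ _]
  have h8 : ((s.totient * ∑' n, clsOne s σ n -
      (∑' n, p2 σ n - ∑' n : ℕ, (if n.Coprime s then 0 else p2 σ n)) : ℝ) : ℂ) =
      ∑ χ ∈ (univ : Finset (DirichletCharacter ℂ s)).erase 1, LSeries (logMul (cv χ)) σ := by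
    rw [Complex.ofReal_sub, h3]; ring
  rw [← h8, Complex.norm_real, Real.norm_eq_abs, abs_le] at h5
  rw [abs_le]
  constructor <;> linarith [h5.1, h5.2]

end Pool.Agent.Lib.Sieve
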