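import Pool.Agent.Lib.Sieve.Periodic

/-!
Finite Euler product bounds and a mean value bound for multiplicative weights.
-/

namespace Pool.Agent.Lib.Sieve

open Finset

theorem card_filter_dvd_le (N d : ℕ) :
    (((Ioc 0 N).filter (fun n => d ∣ n)).card : ℝ) ≤ (N : ℝ) / d := by
  rw [Nat.Ioc_filter_dvd_card_eq_div]
  exact Nat.cast_div_le

theorem geom_le_inv {u : ℝ} (h0 : 0 ≤ u) (h1 : u < 1) (I : ℕ) :
    ∑ i ∈ range I, u ^ i ≤ (1 - u)⁻¹ := by
  rw [← tsum_geometric_of_lt_one h0 h1]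
  exact (summable_geometric_of_lt_one h0 h1).sum_le_tsum _ (fun i _ => by positivity)

/-- The sum of a submultiplicative function over elements of the monoid generated by `G` is at
most the Euler product over `G`. -/
theorem sum_le_prod_inv (g : ℕ → ℝ) (g0 : ∀ n, 0 ≤ g n) (g1 : g 1 ≤ 1)
    (gm : ∀ a b, g (a * b) ≤ g a * g b) (G : Finset ℕ) (hG : ∀ q ∈ G, g q < 1)
    (S : Finset ℕ) (hS : ∀ v ∈ S, v ∈ Submonoid.closure (G : Set ℕ)) :
    ∑ v ∈ S, g v ≤ ∏ q ∈ G, (1 - g q)⁻¹ := by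
  classical
  induction G using Finset.induction_on generalizing S with
  | empty =>
    have : S ⊆ {1} := by
      intro v hv
      simpa using hS v hv
    calc ∑ v ∈ S, g v ≤ ∑ v ∈ ({1} : Finset ℕ), g v :=
          sum_le_sum_of_subset_of_nonneg this fun _ _ _ => g0 _
      _ ≤ _ := by simpa using g1
  | insert q G hq ih =>
    have hG' : ∀ r ∈ G, g r < 1 := fun r hr => hG r (mem_insert_of_mem hr)
    have hq1 : g q < 1 := hG q (mem_insert_self _ _)
    have hdec : ∀ v ∈ S, ∃ i : ℕ, ∃ w ∈ Submonoid.closure (G : Set ℕ), q ^ i * w = v := by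
      intro v hv
      have h1 := hS v hv
      rw [coe_insert, Set.insert_eq, Submonoid.closure_union, Submonoid.mem_sup] at h1
      obtain ⟨y, hy, z, hz, rfl⟩ := h1
      obtain ⟨i, rfl⟩ := Submonoid.mem_closure_singleton.1 hy
      exact ⟨i, z, hz, rfl⟩
    choose! i w hw hiw using hdec
    have hpow : ∀ k : ℕ, g (q ^ k) ≤ g q ^ k := by
      intro k
      induction k with
      | zero => simpa using g1
      | succ k ihk =>
        rw [pow_succ, pow_succ]
        exact (gm _ _).trans (mul_le_mul_of_nonneg_right ihk (g0 _))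
    let φ : ℕ → ℕ × ℕ := fun v => (i v, w v)
    have hφ : Set.InjOn φ S := by
      intro a ha b hb hab
      simp only [φ, Prod.mk.injEq] at hab
      rw [← hiw a ha, ← hiw b hb, hab.1, hab.2]
    let F : ℕ × ℕ → ℝ := fun x => g q ^ x.1 * g x.2
    have hF0 : ∀ x, 0 ≤ F x := fun x => mul_nonneg (pow_nonneg (g0 _) _) (g0 _)
    have hsub : S.image φ ⊆ range (S.sup i + 1) ×ˢ S.image w := by
      intro x hx
      obtain ⟨v, hv, rfl⟩ := mem_image.1 hx
      simp only [φ, mem_product, mem_range]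
      exact ⟨Nat.lt_succ_of_le (le_sup (f := i) hv), mem_image_of_mem _ hv⟩
    calc ∑ v ∈ S, g v ≤ ∑ v ∈ S, F (φ v) := by
          refine sum_le_sum fun v hv => ?_
          conv_lhs => rw [← hiw v hv]
          exact (gm _ _).trans (mul_le_mul_of_nonneg_right (hpow _) (g0 _))
      _ = ∑ x ∈ S.image φ, F x := (sum_image hφ).symm
      _ ≤ ∑ x ∈ range (S.sup i + 1) ×ˢ S.image w, F x :=
          sum_le_sum_of_subset_of_nonneg hsub fun _ _ _ => hF0 _
      _ = (∑ k ∈ range (S.sup i + 1), g q ^ k) * ∑ v ∈ S.image w, g v := by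
          rw [sum_mul_sum, sum_product]
      _ ≤ (1 - g q)⁻¹ * ∏ r ∈ G, (1 - g r)⁻¹ := by
          apply mul_le_mul (geom_le_inv (g0 _) hq1 _) (ih hG' _ ?_)
            (sum_nonneg fun _ _ => g0 _) (inv_nonneg.2 (by linarith))
          intro v hv
          obtain ⟨u, hu, rfl⟩ := mem_image.1 hv
          exact hw u hu
      _ = _ := by rw [prod_insert hq]

theorem inv_one_sub_le_exp {u : ℝ} (h0 : 0 ≤ u) (h1 : u ≤ 1 / 2) :
    (1 - u)⁻¹ ≤ Real.exp (u + 2 * u ^ 2) := by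
  have h2 : 0 < 1 - u := by linarith
  have h3 : 1 + (u + 2 * u ^ 2) ≤ Real.exp (u + 2 * u ^ 2) := by
    have := Real.add_one_le_exp (u + 2 * u ^ 2); linarith
  refine le_trans ?_ h3
  rw [inv_eq_one_div, div_le_iff₀ h2]
  nlinarith [mul_nonneg h0 h0, mul_nonneg (mul_nonneg h0 h0) (by linarith : (0 : ℝ) ≤ 1 - 2 * u)]

theorem sum_le_exp (g : ℕ → ℝ) (g0 : ∀ n, 0 ≤ g n) (g1 : g 1 ≤ 1)
    (gm : ∀ a b, g (a * b) ≤ g a * g b) (G : Finset ℕ) (hG : ∀ q ∈ G, g q ≤ 1 / 2)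
    (S : Finset ℕ) (hS : ∀ v ∈ S, v ∈ Submonoid.closure (G : Set ℕ)) :
    ∑ v ∈ S, g v ≤ Real.exp (∑ q ∈ G, (g q + 2 * g q ^ 2)) := by
  refine (sum_le_prod_inv g g0 g1 gm G (fun q hq => (hG q hq).trans_lt (by norm_num)) S hS).trans ?_
  rw [Real.exp_sum]
  refine prod_le_prod (fun q hq => inv_nonneg.2 (by linarith [hG q hq])) fun q hq => ?_
  exact inv_one_sub_le_exp (g0 _) (hG q hq)

theorem mem_closure_of_primes {P : Set ℕ} {n : ℕ} (hn : n ≠ 0)
    (h : ∀ p, p.Prime → p ∣ n → p ∈ P) : n ∈ Submonoid.closure P := by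
  rw [← Nat.prod_primeFactorsList hn]
  refine Submonoid.list_prod_mem _ fun p hp => Submonoid.subset_closure ?_
  exact h p (Nat.prime_of_mem_primeFactorsList hp) (Nat.dvd_of_mem_primeFactorsList hp)

/-- Mean value bound for weights `∏ (1 + a p)` over the primes `p ∈ Q` dividing `n`. -/
theorem sum_prod_one_add_le (Q : Finset ℕ) (hQ : ∀ p ∈ Q, p.Prime) (a : ℕ → ℝ)
    (ha : ∀ p ∈ Q, 0 ≤ a p) (N : ℕ) :
    ∑ n ∈ Ioc 0 N, ∏ p ∈ Q.filter (fun p => p ∣ n), (1 + a p) ≤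
      N * ∏ p ∈ Q, (1 + a p / p) := by
  classical
  have h1 : ∀ n : ℕ, ∏ p ∈ Q.filter (fun p => p ∣ n), (1 + a p) =
      ∑ S ∈ Q.powerset, if (∏ p ∈ S, p) ∣ n then ∏ p ∈ S, a p else 0 := by
    intro n
    rw [prod_one_add, ← sum_filter]
    refine sum_congr ?_ fun _ _ => rfl
    ext S
    simp only [mem_powerset, mem_filter]
    constructor
    · intro h
      refine ⟨h.trans (filter_subset _ _), ?_⟩
      exact Finset.prod_primes_dvd n (fun p hp => (hQ p (mem_filter.1 (h hp)).1).prime)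
        (fun p hp => (mem_filter.1 (h hp)).2)
    · rintro ⟨h, h'⟩ p hp
      exact mem_filter.2 ⟨h hp, (dvd_prod_of_mem (fun p => p) hp).trans h'⟩
  simp only [h1]
  rw [sum_comm, prod_one_add, mul_sum]
  refine sum_le_sum fun S hS => ?_
  have hS' := mem_powerset.1 hS
  rw [← sum_filter, sum_const, nsmul_eq_mul, prod_div_distrib]
  have h2 := card_filter_dvd_le N (∏ p ∈ S, p)
  have h3 : 0 ≤ ∏ p ∈ S, a p := prod_nonneg fun p hp => ha p (hS' hp)
  calc _ ≤ ((N : ℝ) / (∏ p ∈ S, p : ℕ)) * ∏ p ∈ S, a p := mul_le_mul_of_nonneg_right h2 h3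
    _ = _ := by push_cast; ring

end Pool.Agent.Lib.Sieve
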