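import Mathlib

/-!
Sums of products of periodic functions over complete residue systems.
-/

namespace Pool.Agent.Lib.Sieve

open Finset

theorem sum_range_mul_coprime {a b : ℕ} (hab : a.Coprime b) (ha : 0 < a) (hb : 0 < b)
    (f g : ℕ → ℝ) (hf : ∀ n, f n = f (n % a)) (hg : ∀ n, g n = g (n % b)) :
    ∑ n ∈ range (a * b), f n * g n = (∑ i ∈ range a, f i) * ∑ j ∈ range b, g j := by
  rw [sum_mul_sum, ← sum_product']
  refine sum_nbij' (fun n => (n % a, n % b))
    (fun x => (Nat.chineseRemainder hab x.1 x.2 : ℕ)) ?_ ?_ ?_ ?_ ?_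
  · intro n _
    simp only [mem_product, mem_range]
    exact ⟨Nat.mod_lt _ ha, Nat.mod_lt _ hb⟩
  · intro x _
    simp only [mem_range]
    exact Nat.chineseRemainder_lt_mul hab _ _ ha.ne' hb.ne'
  · intro n hn
    simp only [mem_range] at hn
    have h1 := (Nat.chineseRemainder hab (n % a) (n % b)).2
    have h2 : (Nat.chineseRemainder hab (n % a) (n % b) : ℕ) ≡ n [MOD a * b] := by
      rw [← Nat.modEq_and_modEq_iff_modEq_mul hab]
      exact ⟨h1.1.trans (Nat.mod_modEq n a), h1.2.trans (Nat.mod_modEq n b)⟩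
    exact Nat.ModEq.eq_of_lt_of_lt h2 (Nat.chineseRemainder_lt_mul hab _ _ ha.ne' hb.ne') hn
  · intro x hx
    simp only [mem_product, mem_range] at hx
    have h1 := (Nat.chineseRemainder hab x.1 x.2).2
    ext
    · exact Eq.trans h1.1 (Nat.mod_eq_of_lt hx.1)
    · exact Eq.trans h1.2 (Nat.mod_eq_of_lt hx.2)
  · intro n _
    simp only
    rw [← hf, ← hg]

theorem sum_range_prod (U : Finset ℕ) (hU : ∀ p ∈ U, p.Prime) (f : ℕ → ℕ → ℝ)
    (hf : ∀ p ∈ U, ∀ n, f p n = f p (n % p)) :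
    ∑ n ∈ range (∏ p ∈ U, p), ∏ p ∈ U, f p n = ∏ p ∈ U, ∑ i ∈ range p, f p i := by
  classical
  induction U using Finset.induction_on with
  | empty => simp
  | insert p U hp ih =>
    have hU' : ∀ q ∈ U, q.Prime := fun q hq => hU q (mem_insert_of_mem hq)
    have hf' : ∀ q ∈ U, ∀ n, f q n = f q (n % q) := fun q hq => hf q (mem_insert_of_mem hq)
    have hpp : p.Prime := hU p (mem_insert_self _ _)
    simp only [prod_insert hp]
    rw [← ih hU' hf']
    apply sum_range_mul_coprime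
    · apply Nat.Coprime.prod_right
      intro q hq
      exact (Nat.coprime_primes hpp (hU' q hq)).2 (fun h => hp (h ▸ hq))
    · exact hpp.pos
    · exact prod_pos fun q hq => (hU' q hq).pos
    · exact hf p (mem_insert_self _ _)
    · intro n
      refine prod_congr rfl fun q hq => ?_
      rw [hf' q hq n, hf' q hq (n % ∏ p ∈ U, p), Nat.mod_mod_of_dvd _ (dvd_prod_of_mem (fun p => p) hq)]

theorem sum_range_mul_periodic {q : ℕ} (F : ℕ → ℝ) (hF : ∀ n, F n = F (n % q)) (k : ℕ) :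
    ∑ n ∈ range (q * k), F n = k * ∑ i ∈ range q, F i := by
  induction k with
  | zero => simp
  | succ k ih =>
    rw [Nat.mul_succ, sum_range_add, ih]
    have : ∑ x ∈ range q, F (q * k + x) = ∑ x ∈ range q, F x := by
      refine sum_congr rfl fun x _ => ?_
      rw [hF (q * k + x), hF x, Nat.mul_add_mod]
    rw [this]; push_cast; ring

theorem sum_periodic_le {q : ℕ} (hq : 0 < q) (F : ℕ → ℝ) (hF : ∀ n, F n = F (n % q))
    (hb : ∀ n, |F n| ≤ 1) (N : ℕ) :
    ∑ n ∈ range N, F n ≤ N * ((∑ i ∈ range q, F i) / q) + 2 * q := by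
  have hN : N = q * (N / q) + N % q := (Nat.div_add_mod N q).symm
  set k := N / q
  set r := N % q
  have hr : r < q := Nat.mod_lt _ hq
  have hq' : (0 : ℝ) < q := by exact_mod_cast hq
  set S := ∑ i ∈ range q, F i
  have hS : |S| ≤ q := by
    calc |S| ≤ ∑ i ∈ range q, |F i| := abs_sum_le_sum_abs _ _
      _ ≤ ∑ i ∈ range q, (1 : ℝ) := sum_le_sum fun i _ => hb i
      _ = q := by simp
  have h1 : ∑ x ∈ range r, F (q * k + x) ≤ r := by
    calc ∑ x ∈ range r, F (q * k + x) ≤ ∑ x ∈ range r, (1 : ℝ) :=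
          sum_le_sum fun i _ => (le_abs_self _).trans (hb _)
      _ = r := by simp
  have hr' : (r : ℝ) ≤ q := by exact_mod_cast hr.le
  have hr0 : (0 : ℝ) ≤ r := by positivity
  have hm : |S / q| ≤ 1 := by
    rw [abs_div, abs_of_pos hq', div_le_one hq']; exact hS
  rw [hN, sum_range_add, sum_range_mul_periodic F hF]
  push_cast
  have h2 : (q * k + r : ℝ) * (S / q) = k * S + r * (S / q) := by field_simp
  rw [h2]
  have h3 : -(r : ℝ) ≤ r * (S / q) := by
    have := (abs_le.1 hm).1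
    nlinarith
  linarith

theorem sum_prod_periodic_le (U : Finset ℕ) (hU : ∀ p ∈ U, p.Prime) (f : ℕ → ℕ → ℝ)
    (hf : ∀ p ∈ U, ∀ n, f p n = f p (n % p)) (hb : ∀ p ∈ U, ∀ n, |f p n| ≤ 1) (N : ℕ) :
    ∑ n ∈ range N, ∏ p ∈ U, f p n ≤
      N * (∏ p ∈ U, (∑ i ∈ range p, f p i) / p) + 2 * ((∏ p ∈ U, p : ℕ) : ℝ) := by
  have hq : 0 < ∏ p ∈ U, p := prod_pos fun q hq => (hU q hq).pos
  have := sum_periodic_le hq (fun n => ∏ p ∈ U, f p n) ?_ ?_ N
  · rw [sum_range_prod U hU f hf] at this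
    rw [prod_div_distrib]
    convert this using 4
    push_cast; rfl
  · intro n
    refine prod_congr rfl fun q hq => ?_
    rw [hf q hq n, hf q hq (n % ∏ p ∈ U, p), Nat.mod_mod_of_dvd _ (dvd_prod_of_mem (fun p => p) hq)]
  · intro n
    rw [abs_prod]
    exact prod_le_one (fun _ _ => abs_nonneg _) fun p hp => hb p hp n

theorem prod_injOn_primes {S T : Finset ℕ} (hS : ∀ p ∈ S, p.Prime) (hT : ∀ p ∈ T, p.Prime)
    (h : ∏ p ∈ S, p = ∏ p ∈ T, p) : S = T := by
  rw [← Nat.primeFactors_prod hS, ← Nat.primeFactors_prod hT, h]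

end Pool.Agent.Lib.Sieve
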