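import Pool.Agent.Lib.Sieve.Periodic

/-!
The upper bound sieve in its square-sum form.
-/

namespace Pool.Agent.Lib.Sieve

open Finset

/-- The sieve weight attached to a prime `p` from which `r` residue classes are removed. -/
noncomputable def hw (p r : ℕ) : ℝ := (r : ℝ) / ((p : ℝ) - r)

theorem hw_nonneg {p r : ℕ} (h : 2 * r ≤ p) : 0 ≤ hw p r := by
  have : (2 * r : ℝ) ≤ p := by exact_mod_cast h
  have : (0 : ℝ) ≤ r := by positivity
  unfold hw
  apply div_nonneg <;> linarith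

theorem hw_le_one {p r : ℕ} (hp : 0 < p) (h : 2 * r ≤ p) : hw p r ≤ 1 := by
  have : (2 * r : ℝ) ≤ p := by exact_mod_cast h
  have : (0 : ℝ) ≤ r := by positivity
  have : (0 : ℝ) < p := by exact_mod_cast hp
  unfold hw
  rw [div_le_one] <;> linarith

/-- The mean zero function attached to a prime. -/
noncomputable def th (Ω : ℕ → Finset ℕ) (p n : ℕ) : ℝ :=
  if n % p ∈ Ω p then -1 else hw p (Ω p).card

theorem th_mod (Ω : ℕ → Finset ℕ) (p n : ℕ) : th Ω p n = th Ω p (n % p) := by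
  unfold th; rw [Nat.mod_mod]

theorem abs_th_le (Ω : ℕ → Finset ℕ) {p : ℕ} (hp : 0 < p) (h : 2 * (Ω p).card ≤ p) (n : ℕ) :
    |th Ω p n| ≤ 1 := by
  unfold th
  split_ifs
  · simp
  · rw [abs_of_nonneg (hw_nonneg h)]; exact hw_le_one hp h

theorem sum_ite_range (Ω : ℕ → Finset ℕ) {p : ℕ} (hΩ : Ω p ⊆ range p) (a b : ℝ) :
    ∑ i ∈ range p, (if i % p ∈ Ω p then a else b) =
      (Ω p).card * a + ((p : ℝ) - (Ω p).card) * b := by
  have h1 : ∑ i ∈ range p, (if i % p ∈ Ω p then a else b) =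
      ∑ i ∈ range p, (if i ∈ Ω p then a else b) := by
    refine sum_congr rfl fun i hi => ?_
    rw [Nat.mod_eq_of_lt (mem_range.1 hi)]
  rw [h1, sum_ite]
  simp only [sum_const, nsmul_eq_mul]
  have h2 : (range p).filter (fun i => i ∈ Ω p) = Ω p := by
    ext i; simp only [mem_filter]; exact ⟨fun h => h.2, fun h => ⟨hΩ h, h⟩⟩
  have h3 : ((range p).filter (fun i => ¬ i ∈ Ω p)).card + (Ω p).card = p := by
    have := card_filter_add_card_filter_not (s := range p) (fun i => i ∈ Ω p)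
    rw [h2, card_range] at this
    omega
  have h4 : (((range p).filter (fun i => ¬ i ∈ Ω p)).card : ℝ) = (p : ℝ) - (Ω p).card := by
    have : ((((range p).filter (fun i => ¬ i ∈ Ω p)).card + (Ω p).card : ℕ) : ℝ) = p := by
      rw [h3]
    push_cast at this
    linarith
  rw [h2, h4]

theorem sum_th (Ω : ℕ → Finset ℕ) {p : ℕ} (hp : 0 < p) (hΩ : Ω p ⊆ range p)
    (h : 2 * (Ω p).card ≤ p) : ∑ i ∈ range p, th Ω p i = 0 := by
  unfold th
  rw [sum_ite_range Ω hΩ]
  have : (2 * (Ω p).card : ℝ) ≤ p := by exact_mod_cast h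
  have : (0 : ℝ) ≤ (Ω p).card := by positivity
  have : (0 : ℝ) < p := by exact_mod_cast hp
  have : (p : ℝ) - (Ω p).card ≠ 0 := by linarith
  unfold hw
  field_simp
  ring

theorem sum_th_sq (Ω : ℕ → Finset ℕ) {p : ℕ} (hp : 0 < p) (hΩ : Ω p ⊆ range p)
    (h : 2 * (Ω p).card ≤ p) :
    ∑ i ∈ range p, th Ω p i * th Ω p i = p * hw p (Ω p).card := by
  have h1 : ∀ i, th Ω p i * th Ω p i =
      if i % p ∈ Ω p then 1 else hw p (Ω p).card * hw p (Ω p).card := by
    intro i; unfold th; split_ifs <;> simp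
  simp only [h1]
  rw [sum_ite_range Ω hΩ]
  have : (2 * (Ω p).card : ℝ) ≤ p := by exact_mod_cast h
  have : (0 : ℝ) ≤ (Ω p).card := by positivity
  have : (0 : ℝ) < p := by exact_mod_cast hp
  have : (p : ℝ) - (Ω p).card ≠ 0 := by linarith
  unfold hw
  field_simp
  ring

theorem sum_th_mul_le (Ω : ℕ → Finset ℕ) (P : Finset ℕ) (hP : ∀ p ∈ P, p.Prime)
    (hΩ : ∀ p ∈ P, Ω p ⊆ range p) (h : ∀ p ∈ P, 2 * (Ω p).card ≤ p)
    {S T : Finset ℕ} (hS : S ⊆ P) (hT : T ⊆ P) {D : ℕ} (hSD : ∏ p ∈ S, p ≤ D)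
    (hTD : ∏ p ∈ T, p ≤ D) (N : ℕ) :
    ∑ n ∈ range N, (∏ p ∈ S, th Ω p n) * ∏ p ∈ T, th Ω p n ≤
      N * (if S = T then ∏ p ∈ S, hw p (Ω p).card else 0) + 2 * (D : ℝ) ^ 2 := by
  classical
  have hU : S ∪ T ⊆ P := union_subset hS hT
  let f : ℕ → ℕ → ℝ := fun p n =>
    (if p ∈ S then th Ω p n else 1) * (if p ∈ T then th Ω p n else 1)
  have h1 : ∀ n, (∏ p ∈ S, th Ω p n) * ∏ p ∈ T, th Ω p n = ∏ p ∈ S ∪ T, f p n := by
    intro n
    simp only [f]
    rw [prod_mul_distrib, prod_ite_mem, prod_ite_mem, union_inter_cancel_left,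
      union_inter_cancel_right]
  simp only [h1]
  have h2 := sum_prod_periodic_le (S ∪ T) (fun p hp => hP p (hU hp)) f ?_ ?_ N
  · refine h2.trans (add_le_add ?_ ?_)
    · apply mul_le_mul_of_nonneg_left _ (by positivity)
      apply le_of_eq
      split_ifs with hST
      · subst hST
        rw [union_self]
        refine prod_congr rfl fun p hp => ?_
        have hp0 : 0 < p := (hP p (hS hp)).pos
        have hp0' : (0 : ℝ) < p := by exact_mod_cast hp0
        simp only [f, hp, if_true]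
        rw [sum_th_sq Ω hp0 (hΩ p (hS hp)) (h p (hS hp))]
        field_simp
      · have : ∃ p ∈ S ∪ T, ¬ (p ∈ S ∧ p ∈ T) := by
          by_contra hc
          push Not at hc
          apply hST
          ext p
          exact ⟨fun hp => (hc p (mem_union_left _ hp)).2, fun hp => (hc p (mem_union_right _ hp)).1⟩
        obtain ⟨p, hp, hp'⟩ := this
        refine prod_eq_zero hp ?_
        have hp0 : 0 < p := (hP p (hU hp)).pos
        have : ∑ i ∈ range p, f p i = ∑ i ∈ range p, th Ω p i := by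
          refine sum_congr rfl fun i _ => ?_
          simp only [f]
          rcases mem_union.1 hp with h' | h'
          · have : p ∉ T := fun h'' => hp' ⟨h', h''⟩
            simp [h', this]
          · have : p ∉ S := fun h'' => hp' ⟨h'', h'⟩
            simp [h', this]
        rw [this, sum_th Ω hp0 (hΩ p (hU hp)) (h p (hU hp)), zero_div]
    · apply mul_le_mul_of_nonneg_left _ (by positivity)
      have h3 : (∏ p ∈ S ∪ T, p) * ∏ p ∈ S ∩ T, p = (∏ p ∈ S, p) * ∏ p ∈ T, p :=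
        prod_union_inter
      have h4 : 0 < ∏ p ∈ S ∩ T, p :=
        prod_pos fun p hp => (hP p (hS (mem_inter.1 hp).1)).pos
      have h5 : ∏ p ∈ S ∪ T, p ≤ D ^ 2 := by
        calc ∏ p ∈ S ∪ T, p ≤ (∏ p ∈ S ∪ T, p) * ∏ p ∈ S ∩ T, p := Nat.le_mul_of_pos_right _ h4
          _ = (∏ p ∈ S, p) * ∏ p ∈ T, p := h3
          _ ≤ D * D := Nat.mul_le_mul hSD hTD
          _ = D ^ 2 := by ring
      exact_mod_cast h5
  · intro p _ n
    simp only [f]
    rw [← th_mod]
  · intro p hp n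
    have hp0 : 0 < p := (hP p (hU hp)).pos
    have := abs_th_le Ω hp0 (h p (hU hp)) n
    simp only [f]
    rw [abs_mul]
    apply mul_le_one₀
    · split_ifs <;> simp [this]
    · positivity
    · split_ifs <;> simp [this]

theorem card_small_prod_le (P : Finset ℕ) (hP : ∀ p ∈ P, p.Prime) (D : ℕ) :
    (P.powerset.filter (fun S => ∏ p ∈ S, p ≤ D)).card ≤ D := by
  have : (P.powerset.filter (fun S => ∏ p ∈ S, p ≤ D)).card ≤ (Icc 1 D).card := by
    refine card_le_card_of_injOn (fun S => ∏ p ∈ S, p) ?_ ?_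
    · intro S hS
      simp only [coe_filter, mem_powerset, Set.mem_ofPred_eq] at hS
      simp only [coe_Icc, Set.mem_Icc]
      exact ⟨prod_pos fun p hp => (hP p (hS.1 hp)).pos, hS.2⟩
    · intro S hS T hT hST
      simp only [coe_filter, mem_powerset, Set.mem_ofPred_eq] at hS hT
      exact prod_injOn_primes (fun p hp => hP p (hS.1 hp)) (fun p hp => hP p (hT.1 hp)) hST
  simpa using this

/-- The sieve sum. -/
noncomputable def bigG (Ω : ℕ → Finset ℕ) (P : Finset ℕ) (D : ℕ) : ℝ :=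
  ∑ S ∈ P.powerset.filter (fun S => ∏ p ∈ S, p ≤ D), ∏ p ∈ S, hw p (Ω p).card

theorem one_le_bigG (Ω : ℕ → Finset ℕ) (P : Finset ℕ) (h : ∀ p ∈ P, 2 * (Ω p).card ≤ p)
    {D : ℕ} (hD : 1 ≤ D) : 1 ≤ bigG Ω P D := by
  unfold bigG
  have hmem : (∅ : Finset ℕ) ∈ P.powerset.filter (fun S => ∏ p ∈ S, p ≤ D) := by
    simp [hD]
  have := single_le_sum (f := fun S : Finset ℕ => ∏ p ∈ S, hw p (Ω p).card)
    (fun S hS => prod_nonneg fun p hp =>
      hw_nonneg (h p (mem_powerset.1 (mem_filter.1 hS).1 hp))) hmem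
  simpa using this

theorem selberg_sieve (Ω : ℕ → Finset ℕ) (P : Finset ℕ) (hP : ∀ p ∈ P, p.Prime)
    (hΩ : ∀ p ∈ P, Ω p ⊆ range p) (h : ∀ p ∈ P, 2 * (Ω p).card ≤ p)
    {D : ℕ} (hD : 1 ≤ D) (N : ℕ) :
    (((range N).filter (fun n => ∀ p ∈ P, n % p ∉ Ω p)).card : ℝ) ≤
      N / bigG Ω P D + 2 * (D : ℝ) ^ 4 := by
  classical
  set 𝒮 := P.powerset.filter (fun S => ∏ p ∈ S, p ≤ D) with h𝒮
  set G := bigG Ω P D with hG
  have hG1 : 1 ≤ G := one_le_bigG Ω P h hD
  let F : ℕ → ℝ := fun n => ∑ S ∈ 𝒮, ∏ p ∈ S, th Ω p n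
  set A := (range N).filter (fun n => ∀ p ∈ P, n % p ∉ Ω p) with hA
  have h1 : ∀ n ∈ A, F n = G := by
    intro n hn
    simp only [F, hG, bigG]
    refine sum_congr rfl fun S hS => prod_congr rfl fun p hp => ?_
    have := (mem_filter.1 hn).2 p (mem_powerset.1 (mem_filter.1 hS).1 hp)
    unfold th
    rw [if_neg this]
  have h2 : (A.card : ℝ) * G ^ 2 ≤ ∑ n ∈ range N, F n * F n := by
    calc (A.card : ℝ) * G ^ 2 = ∑ n ∈ A, F n * F n := by
          rw [sum_congr rfl (g := fun _ => G ^ 2) (fun n hn => by rw [h1 n hn]; ring)]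
          simp
      _ ≤ ∑ n ∈ range N, F n * F n :=
          sum_le_sum_of_subset_of_nonneg (filter_subset _ _) fun n _ _ => mul_self_nonneg _
  have hcard : (𝒮.card : ℝ) ≤ D := by exact_mod_cast card_small_prod_le P hP D
  have h3 : ∑ n ∈ range N, F n * F n ≤ N * G + 2 * (D : ℝ) ^ 4 := by
    calc ∑ n ∈ range N, F n * F n
        = ∑ S ∈ 𝒮, ∑ T ∈ 𝒮, ∑ n ∈ range N, (∏ p ∈ S, th Ω p n) * ∏ p ∈ T, th Ω p n := by
          simp only [F, sum_mul_sum]
          rw [sum_comm]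
          refine sum_congr rfl fun S _ => ?_
          rw [sum_comm]
      _ ≤ ∑ S ∈ 𝒮, ∑ T ∈ 𝒮,
            (N * (if S = T then ∏ p ∈ S, hw p (Ω p).card else 0) + 2 * (D : ℝ) ^ 2) := by
          refine sum_le_sum fun S hS => sum_le_sum fun T hT => ?_
          exact sum_th_mul_le Ω P hP hΩ h (mem_powerset.1 (mem_filter.1 hS).1)
            (mem_powerset.1 (mem_filter.1 hT).1) (mem_filter.1 hS).2 (mem_filter.1 hT).2 N
      _ = ∑ S ∈ 𝒮, (N * ∏ p ∈ S, hw p (Ω p).card + 𝒮.card * (2 * (D : ℝ) ^ 2)) := by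
          refine sum_congr rfl fun S hS => ?_
          rw [sum_add_distrib, ← mul_sum, sum_ite_eq, if_pos hS]
          simp
      _ = N * G + 𝒮.card * (𝒮.card * (2 * (D : ℝ) ^ 2)) := by
          rw [sum_add_distrib, ← mul_sum]
          simp [hG, bigG, h𝒮]
      _ ≤ N * G + D * (D * (2 * (D : ℝ) ^ 2)) := by gcongr
      _ = N * G + 2 * (D : ℝ) ^ 4 := by ring
  have hG0 : 0 < G := by linarith
  have h4 : (A.card : ℝ) ≤ (N * G + 2 * (D : ℝ) ^ 4) / G ^ 2 := by
    rw [le_div_iff₀ (by positivity)]; linarith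
  calc (A.card : ℝ) ≤ (N * G + 2 * (D : ℝ) ^ 4) / G ^ 2 := h4
    _ = N / G + 2 * (D : ℝ) ^ 4 / G ^ 2 := by field_simp
    _ ≤ N / G + 2 * (D : ℝ) ^ 4 := by
        gcongr
        apply div_le_self (by positivity)
        nlinarith

end Pool.Agent.Lib.Sieve
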