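import Pool.Agent.Lib.Sieve.Shifted

/-!
Primes `s * c + 1` counted with weight one half for each prime factor of `c` in `(Z, Y]`.
-/

namespace Pool.Agent.Lib.Sieve

open Finset Real

/-- One half on `(Z, Y]` and one elsewhere. -/
noncomputable def ha (Z Y p : ℕ) : ℝ := if Z < p ∧ p ≤ Y then 1 / 2 else 1

theorem ha_nonneg (Z Y p : ℕ) : 0 ≤ ha Z Y p := by unfold ha; split_ifs <;> norm_num

theorem ha_le_one (Z Y p : ℕ) : ha Z Y p ≤ 1 := by unfold ha; split_ifs <;> norm_num

theorem prod_half_eq (Q : Finset ℕ) (c : ℕ) :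
    ∏ _p ∈ Q.filter (fun p => p ∣ c), (1 / 2 : ℝ) =
      (1 / 2) ^ Q.card * ∑ R ∈ Q.powerset, if ∀ p ∈ R, ¬ p ∣ c then 1 else 0 := by
  classical
  have h1 : ∀ R ∈ Q.powerset, (if ∀ p ∈ R, ¬ p ∣ c then (1 : ℝ) else 0) =
      ∏ p ∈ R, if ¬ p ∣ c then 1 else 0 := by
    intro R _
    rw [prod_ite_zero]; simp
  rw [sum_congr rfl h1, ← prod_one_add, ← prod_const, ← prod_mul_distrib, prod_filter]
  refine prod_congr rfl fun p _ => ?_
  split_ifs <;> norm_num

theorem half_one_add_exp_le {u : ℝ} (hu : 0 ≤ u) :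
    1 / 2 * (1 + exp (-u)) ≤ exp (-(1 / 2) * u + u ^ 2) := by
  have h1 : exp (-u) ≤ 1 - u + u ^ 2 := by
    have h2 := add_one_le_exp u
    rw [exp_neg, inv_eq_one_div, div_le_iff₀ (exp_pos u)]
    have h3 : 0 ≤ 1 - u + u ^ 2 := by nlinarith
    calc (1 : ℝ) ≤ (1 - u + u ^ 2) * (u + 1) := by nlinarith [mul_nonneg hu (mul_nonneg hu hu)]
      _ ≤ _ := by gcongr
  have h4 := add_one_le_exp (-(1 / 2) * u + u ^ 2)
  nlinarith

theorem weighted_sieve {N s Z Y : ℕ} (hN : 2 ^ 120 ≤ N) (hs : 0 < s) (hZ : 2 ≤ Z) (hY : 2 ≤ Y) :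
    ∑ c ∈ (Ioc 0 N).filter (fun c => (s * c + 1).Prime), cw (ha Z Y) c ≤
      (2880 * exp 9 + 600) * ew s * (N / log N) * √(log Z / min (log Y) (log N)) := by
  classical
  obtain ⟨y, hy8, hlog, hyN, herr⟩ := exists_level hN
  have hl := two_le_log hy8
  have hN1 : (8 : ℝ) ≤ N := by exact_mod_cast hy8.trans hyN
  have hlN : 2 ≤ log N := two_le_log (hy8.trans hyN)
  have hlZ := one_half_le_log hZ
  have hlY := one_half_le_log hY
  set Q := (sp y).filter (fun p => Z < p ∧ p ≤ Y) with hQ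
  have hP : ∀ p ∈ sp y, p.Prime := fun p hp => (mem_sp hp).1
  have hQP : ∀ p ∈ Q, p.Prime := fun p hp => hP p (mem_filter.1 hp).1
  let Ω : Finset ℕ → ℕ → Finset ℕ := fun R p => res s p ∪ (if p ∈ R then {0} else ∅)
  let A : Finset ℕ → Finset ℕ := fun R =>
    (range (N + 1)).filter (fun n => ∀ p ∈ sp y, n % p ∉ Ω R p)
  set E := exp (-∑ p ∈ sp y, ((res s p).card : ℝ) / p) with hE
  have hA : ∀ R ∈ Q.powerset, ((A R).card : ℝ) ≤
      2 * ((N + 1 : ℕ) : ℝ) * E * ∏ p ∈ R, exp (-(1 / (p : ℝ))) + 2 * (y : ℝ) ^ 36 := by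
    intro R hR
    have hR' : R ⊆ sp y := (mem_powerset.1 hR).trans (filter_subset _ _)
    have h1 := sieve_upper (Ω R) (sp y) hy8 (fun p hp => mem_sp hp)
      (fun p hp => union_subset (res_subset _ _) (by
        split_ifs
        · simpa using (hP p hp).pos
        · simp))
      (fun p hp => by
        have h1 := card_res_le (s := s) (hP p hp)
        have h2 : (if p ∈ R then ({0} : Finset ℕ) else ∅).card ≤ 1 := by split_ifs <;> simp
        exact (card_union_le _ _).trans (add_le_add h1 h2)) (N + 1)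
    refine h1.trans (le_of_eq ?_)
    congr 1
    rw [mul_assoc _ E, hE, ← exp_sum, ← exp_add]
    congr 2
    have h2 : ∀ p ∈ sp y, ((Ω R p).card : ℝ) / p =
        ((res s p).card : ℝ) / p + if p ∈ R then 1 / (p : ℝ) else 0 := by
      intro p hp
      simp only [Ω]
      split_ifs
      · rw [card_union_of_disjoint (disjoint_singleton_right.2 (zero_not_mem_res (hP p hp)))]
        push_cast; simp; ring
      · simp
    rw [sum_congr rfl h2, sum_add_distrib, sum_ite_mem, inter_eq_right.2 hR', sum_neg_distrib]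
    ring
  have hpt : ∀ c ∈ (Ioc 0 N).filter (fun c => (s * c + 1).Prime), cw (ha Z Y) c ≤
      (if c ≤ y then 1 else 0) +
        (1 / 2) ^ Q.card * ∑ R ∈ Q.powerset, if c ∈ A R then 1 else 0 := by
    intro c hc
    rw [mem_filter, mem_Ioc] at hc
    have h0 : (0 : ℝ) ≤ (1 / 2) ^ Q.card * ∑ R ∈ Q.powerset, if c ∈ A R then 1 else 0 :=
      mul_nonneg (by positivity) (sum_nonneg fun R _ => by split_ifs <;> norm_num)
    split_ifs with hcy
    · have := cw_le_one (ha_nonneg Z Y) (ha_le_one Z Y) c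
      linarith
    · rw [zero_add]
      refine (cw_le_prod (ha_nonneg Z Y) (ha_le_one Z Y) hc.1.1.ne' Q hQP).trans (le_of_eq ?_)
      rw [prod_congr rfl (g := fun _ => (1 / 2 : ℝ)) (fun p hp => by
        unfold ha; rw [if_pos (mem_filter.1 (mem_filter.1 hp).1).2]), prod_half_eq]
      congr 1
      refine sum_congr rfl fun R hR => ?_
      have hR' : R ⊆ sp y := (mem_powerset.1 hR).trans (filter_subset _ _)
      congr 1
      simp only [A, Ω, mem_filter, mem_range, mem_union, not_or, eq_iff_iff]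
      constructor
      · intro h
        refine ⟨by omega, fun p hp => ⟨?_, ?_⟩⟩
        · rw [mod_mem_res (hP p hp).pos]
          exact not_dvd_of_prime hs (not_le.1 hcy) hc.2 (hP p hp) (mem_sp hp).2.2
        · split_ifs with hpR
          · rw [mem_singleton, ← Nat.dvd_iff_mod_eq_zero]; exact h p hpR
          · simp
      · intro h p hp
        have := (h.2 p (hR' hp)).2
        rwa [if_pos hp, mem_singleton, ← Nat.dvd_iff_mod_eq_zero] at this
  have h1 : ∑ c ∈ (Ioc 0 N).filter (fun c => (s * c + 1).Prime), cw (ha Z Y) c ≤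
      y + (1 / 2) ^ Q.card * ∑ R ∈ Q.powerset, ((A R).card : ℝ) := by
    refine (sum_le_sum hpt).trans ?_
    rw [sum_add_distrib, ← mul_sum, sum_comm]
    apply add_le_add
    · rw [sum_boole]
      have : ((Ioc 0 N).filter (fun c => (s * c + 1).Prime)).filter (fun c => c ≤ y) ⊆
          Ioc 0 y := by
        intro c hc
        simp only [mem_filter, mem_Ioc] at hc ⊢
        exact ⟨hc.1.1.1, hc.2⟩
      have := card_le_card this
      rw [Nat.card_Ioc, Nat.sub_zero] at this
      exact_mod_cast this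
    · refine mul_le_mul_of_nonneg_left (sum_le_sum fun R _ => ?_) (by positivity)
      rw [sum_boole]
      exact_mod_cast card_le_card fun c hc => (mem_filter.1 hc).2
  have h2 : (1 / 2) ^ Q.card * ∑ R ∈ Q.powerset, ((A R).card : ℝ) ≤
      2 * ((N + 1 : ℕ) : ℝ) * E * ∏ p ∈ Q, (1 / 2 * (1 + exp (-(1 / (p : ℝ))))) +
        2 * (y : ℝ) ^ 36 := by
    refine (mul_le_mul_of_nonneg_left (sum_le_sum hA) (by positivity)).trans (le_of_eq ?_)
    rw [sum_add_distrib, ← mul_sum, ← prod_one_add, prod_mul_distrib, prod_const, sum_const,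
      card_powerset, nsmul_eq_mul]
    push_cast
    have : (1 / 2 : ℝ) ^ Q.card * 2 ^ Q.card = 1 := by rw [← mul_pow]; norm_num
    linear_combination (2 * (y : ℝ) ^ 36) * this
  have h3 : E ≤ exp 3 * ew s / log y := by
    have h4 : ∀ p ∈ sp y, 1 / (p : ℝ) - (if p ∣ s then 1 / (p : ℝ) else 0) ≤
        ((res s p).card : ℝ) / p := by
      intro p hp
      split_ifs with h
      · rw [sub_self]; positivity
      · have := card_pos.2 (res_nonempty (hP p hp) h)
        rw [sub_zero]; gcongr; exact_mod_cast this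
    have h5 := sum_le_sum h4
    rw [sum_sub_distrib] at h5
    have h6 := sum_ite_dvd_le (sp y) hP hs.ne'
    have h7 := le_sum_sp (y := y) (by omega)
    rw [hE, ew, ← exp_add]
    conv_rhs => rw [← exp_log (show 0 < log y by linarith), ← exp_sub]
    exact exp_le_exp.2 (by linarith)
  set m := min Y y with hm
  have hm2 : 2 ≤ m := le_min hY (by omega)
  have hlm := one_half_le_log hm2
  have h4 : ∏ p ∈ Q, (1 / 2 * (1 + exp (-(1 / (p : ℝ))))) ≤ exp 6 * √(log Z / log m) := by
    have h5 : ∑ p ∈ sp m, 1 / (p : ℝ) ≤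
        ∑ p ∈ Q, 1 / (p : ℝ) + ∑ p ∈ Nat.primesLE Z, 1 / (p : ℝ) := by
      rw [← sum_filter_add_sum_filter_not (sp m) (fun p => Z < p)]
      refine add_le_add (sum_le_sum_of_subset_of_nonneg ?_ fun _ _ _ => by positivity)
        (sum_le_sum_of_subset_of_nonneg ?_ fun _ _ _ => by positivity)
      · intro p hp
        simp only [hQ, sp, mem_filter, Nat.mem_primesLE, hm, le_min_iff] at hp ⊢
        exact ⟨⟨⟨hp.1.1.1.2, hp.1.1.2⟩, hp.1.2⟩, hp.2, hp.1.1.1.1⟩
      · intro p hp
        simp only [sp, mem_filter, Nat.mem_primesLE, not_lt] at hp ⊢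
        exact ⟨hp.2, hp.1.1.2⟩
    have h6 := le_sum_sp hm2
    have h7 := sum_inv_primes_le hZ
    have h8 := sum_inv_sq_primes_le Q hQP
    calc ∏ p ∈ Q, (1 / 2 * (1 + exp (-(1 / (p : ℝ)))))
        ≤ ∏ p ∈ Q, exp (-(1 / 2) * (1 / (p : ℝ)) + (1 / (p : ℝ)) ^ 2) :=
          prod_le_prod (fun p _ => by positivity) fun p _ => half_one_add_exp_le (by positivity)
      _ = exp (-(1 / 2) * ∑ p ∈ Q, 1 / (p : ℝ) + ∑ p ∈ Q, (1 / (p : ℝ)) ^ 2) := by
          rw [mul_sum, ← sum_add_distrib, exp_sum]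
      _ ≤ exp (6 + (log (log Z) - log (log m)) * (1 / 2)) := exp_le_exp.2 (by linarith)
      _ = exp 6 * √(log Z / log m) := by
          rw [exp_add, sqrt_eq_rpow, rpow_def_of_pos (by positivity),
            log_div (by linarith) (by linarith)]
  set μ := min (log Y) (log N) with hμ
  have hμ0 : 0 < μ := lt_min (by linarith) (by linarith)
  have h5 : √(log Z / log m) ≤ 9 * √(log Z / μ) := by
    have h6 : μ / 80 ≤ log m := by
      rcases min_choice Y y with h | h <;> rw [hm, h]
      · have := min_le_left (log Y) (log N); linarith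
      · have := min_le_right (log Y) (log N); linarith
    calc √(log Z / log m) ≤ √(9 ^ 2 * (log Z / μ)) := by
          apply sqrt_le_sqrt
          calc log Z / log m ≤ log Z / (μ / 80) := by gcongr
            _ = 80 * (log Z / μ) := by field_simp
            _ ≤ _ := by gcongr; norm_num
      _ = _ := by rw [sqrt_mul (by norm_num), sqrt_sq (by norm_num)]
  have h6 : 1 / log N ≤ 2 * √(log Z / μ) := by
    have h7 : (1 / (2 * log N)) ^ 2 ≤ log Z / μ := by
      have h8 : μ ≤ log N := min_le_right _ _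
      calc (1 / (2 * log N)) ^ 2 ≤ (1 / 2) / log N := by
            rw [div_pow, div_le_div_iff₀ (by positivity) (by linarith)]; nlinarith
        _ ≤ _ := by gcongr
    have h8 := le_sqrt_of_sq_le h7
    calc 1 / log N = 2 * (1 / (2 * log N)) := by field_simp
      _ ≤ _ := by gcongr
  have hw := one_le_ew s
  set r := √(log Z / μ)
  have hr : 0 ≤ r := sqrt_nonneg _
  have h7 : 2 * ((N + 1 : ℕ) : ℝ) * E * ∏ p ∈ Q, (1 / 2 * (1 + exp (-(1 / (p : ℝ))))) ≤
      2880 * exp 9 * ew s * (N / log N) * r := by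
    have h11 : ((N + 1 : ℕ) : ℝ) ≤ 2 * N := by push_cast; linarith
    have h12 : log N / 80 ≤ log y := by linarith
    have h13 : exp 9 = exp 3 * exp 6 := by rw [← exp_add]; norm_num
    have h14 : 0 ≤ ∏ p ∈ Q, (1 / 2 * (1 + exp (-(1 / (p : ℝ))))) :=
      prod_nonneg fun p _ => by positivity
    calc _ ≤ 2 * (2 * N) * (exp 3 * ew s / log y) * (exp 6 * (9 * r)) := by
          gcongr
          exact h4.trans (by gcongr)
      _ ≤ 2 * (2 * N) * (exp 3 * ew s / (log N / 80)) * (exp 6 * (9 * r)) := by gcongr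
      _ = _ := by rw [h13]; field_simp; ring
  have h8 : 300 * (N / log N ^ 2) ≤ 600 * ew s * (N / log N) * r := by
    calc 300 * (N / log N ^ 2) = 300 * 1 * (N / log N) * (1 / log N) := by field_simp
      _ ≤ 300 * ew s * (N / log N) * (2 * r) := by gcongr
      _ = _ := by ring
  calc _ ≤ 2880 * exp 9 * ew s * (N / log N) * r + 600 * ew s * (N / log N) * r := by linarith
    _ = _ := by ring

end Pool.Agent.Lib.Sieve
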